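import Mathlib

set_option autoImplicit false

open MeasureTheory Set Filter Topology

namespace Pool.Agent.Helper318.L1D

/-- `A` is an atom of the measure `μ`. -/
def IsAtomSet {Ω : Type*} [MeasurableSpace Ω] (μ : Measure Ω) (A : Set Ω) : Prop :=
  MeasurableSet A ∧ 0 < μ A ∧ ∀ B ⊆ A, MeasurableSet B → μ B = 0 ∨ μ (A \ B) = 0

/-- A measurable set of finite positive measure which contains no atom. -/
def AtomlessPiece {Ω : Type*} [MeasurableSpace Ω] (μ : Measure Ω) (E : Set Ω) : Prop :=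
  MeasurableSet E ∧ 0 < μ E ∧ μ E < ⊤ ∧ ∀ A ⊆ E, ¬ IsAtomSet μ A

/-- `v` or `-v` according to the sign `b` (`true` is `+`). -/
def sv {V : Type*} [Neg V] (b : Bool) (v : V) : V := if b then v else -v

open Classical in
/-- The indicator of `B` as an element of `L¹(μ)` (zero if `B` is not measurable or `μ B = ∞`). -/
noncomputable def chi (𝕜 : Type*) [RCLike 𝕜] {Ω : Type*} [MeasurableSpace Ω] (μ : Measure Ω)
    (B : Set Ω) : Lp 𝕜 1 μ :=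
  if h : MeasurableSet B ∧ μ B ≠ ⊤ then indicatorConstLp 1 h.1 h.2 (1 : 𝕜) else 0

/-- The normalised indicator `1_A / μ(A)`. -/
noncomputable def uni (𝕜 : Type*) [RCLike 𝕜] {Ω : Type*} [MeasurableSpace Ω] (μ : Measure Ω)
    (A : Set Ω) : Lp 𝕜 1 μ :=
  (((μ.real A)⁻¹ : ℝ) : 𝕜) • chi 𝕜 μ A

/-- The vector `x` tests the sets `A i` with the signs `θ i`:
`θ i * Re (T 1_B) x ≥ c μ(B)` for all measurable `B ⊆ A i`. -/
def Tests {𝕜 : Type*} [RCLike 𝕜] {Ω : Type*} [MeasurableSpace Ω] {μ : Measure Ω}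
    {X : Type*} [NormedAddCommGroup X] [NormedSpace 𝕜 X] {ι : Type*}
    (T : Lp 𝕜 1 μ →L[𝕜] StrongDual 𝕜 X) (c : ℝ) (x : X) (θ : ι → Bool) (A : ι → Set Ω) : Prop :=
  ∀ i, ∀ B ⊆ A i, MeasurableSet B → c * μ.real B ≤ sv (θ i) (RCLike.re (T (chi 𝕜 μ B) x))

/-- A sequence in `L¹(μ)` with an upper 2-estimate for all sums with signs. -/
def TwoSeq {𝕜 : Type*} [RCLike 𝕜] {Ω : Type*} [MeasurableSpace Ω] {μ : Measure Ω} (K : ℝ)
    (g : ℕ → Lp 𝕜 1 μ) : Prop :=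
  ∀ (S : Finset ℕ) (ε : ℕ → Bool), ‖∑ n ∈ S, sv (ε n) (g n)‖ ≤ K * √(S.card)

/-- Every sequence with an upper 2-estimate tends to `0` on `B`. -/
def SchurSet (𝕜 : Type*) [RCLike 𝕜] {Ω : Type*} [MeasurableSpace Ω] (μ : Measure Ω)
    (B : Set Ω) : Prop :=
  MeasurableSet B ∧ ∀ (K : ℝ) (g : ℕ → Lp 𝕜 1 μ), TwoSeq K g →
    Tendsto (fun n => ∫ ω in B, ‖g n ω‖ ∂μ) atTop (𝓝 0)

/-- A maximal family of almost disjoint atomless pieces. -/
def MaxFamily {Ω : Type*} [MeasurableSpace Ω] (μ : Measure Ω) (𝓔 : Set (Set Ω)) : Prop :=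
  (∀ E ∈ 𝓔, AtomlessPiece μ E) ∧ (∀ E ∈ 𝓔, ∀ E' ∈ 𝓔, E ≠ E' → μ (E ∩ E') = 0) ∧
    ∀ E, AtomlessPiece μ E → ∃ E' ∈ 𝓔, 0 < μ (E ∩ E')

/-- `M` times the indicator of the union of the finitely many sets in `F`. -/
noncomputable def cap {Ω : Type*} (F : Finset (Set Ω)) (M : ℕ) : Ω → ℝ :=
  (⋃ E ∈ F, E).indicator (fun _ => (M : ℝ))

/-- The trees of sets: `A n s` for `s : Fin n → Bool × Bool`. -/
structure IsTree {𝕜 : Type*} [RCLike 𝕜] {Ω : Type*} [MeasurableSpace Ω] {μ : Measure Ω}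
    {X : Type*} [NormedAddCommGroup X] [NormedSpace 𝕜 X]
    (T : Lp 𝕜 1 μ →L[𝕜] StrongDual 𝕜 X) (c : ℝ)
    (A : (n : ℕ) → (Fin n → Bool × Bool) → Set Ω) : Prop where
  meas : ∀ n s, MeasurableSet (A n s)
  pos : ∀ n s, 0 < μ (A n s)
  fin : ∀ n s, μ (A n s) < ⊤
  disj : ∀ n, Pairwise fun s s' => Disjoint (A n s) (A n s')
  sub : ∀ n (s : Fin (n + 1) → Bool × Bool), A (n + 1) s ⊆ A n (Fin.init s)
  test : ∀ n (θ : (Fin (n + 1) → Bool × Bool) → Bool), ∃ x : X, ‖x‖ ≤ 1 ∧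
    Tests T c x θ (A (n + 1))

/-- The index of level `N` with first coordinates `t` and second coordinates `η`. -/
def idx (t : ℕ → Bool) {N : ℕ} (η : Fin N → Bool) : Fin N → Bool × Bool := fun i => (t i, η i)

/-- The `n`-th Rademacher average of level `N` along the branch `t`
(`n < N`; it is `0` for `n ≥ N`). -/
noncomputable def rad {𝕜 : Type*} [RCLike 𝕜] {Ω : Type*} [MeasurableSpace Ω] {μ : Measure Ω}
    (A : (n : ℕ) → (Fin n → Bool × Bool) → Set Ω) (t : ℕ → Bool) (n N : ℕ) : Lp 𝕜 1 μ :=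
  ((2 : 𝕜) ^ N)⁻¹ • ∑ η : Fin N → Bool,
    if h : n < N then sv (η ⟨n, h⟩) (uni 𝕜 μ (A N (idx t η))) else 0

end Pool.Agent.Helper318.L1D
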