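import Pool.Agent.Helper318.L1D.Defs

set_option autoImplicit false

open MeasureTheory Set Filter Topology

namespace Pool.Agent.Helper318.L1D



theorem exhaust {Ω : Type*} [MeasurableSpace Ω] {μ : Measure Ω} {D : Set Ω}
    (hD : MeasurableSet D) (hfin : μ D < ⊤) (𝒞 : Set (Set Ω)) (h0 : ∅ ∈ 𝒞)
    (hm : ∀ C ∈ 𝒞, MeasurableSet C) (hU : ∀ C : ℕ → Set Ω, (∀ n, C n ∈ 𝒞) → (⋃ n, C n) ∈ 𝒞) :
    ∃ C ∈ 𝒞, ∀ C' ∈ 𝒞, μ (D ∩ (C' \ C)) = 0 := by
  set S : Set ENNReal := (fun C => μ (D ∩ C)) '' 𝒞 with hS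
  have hne : S.Nonempty := ⟨_, ∅, h0, rfl⟩
  obtain ⟨u, hmono, htend, hu⟩ := exists_seq_tendsto_sSup hne (OrderTop.bddAbove S)
  choose C hC hCu using hu
  have hCm := hU C hC
  refine ⟨⋃ n, C n, hCm, fun C' hC' => ?_⟩
  have hle : sSup S ≤ μ (D ∩ ⋃ n, C n) := by
    refine le_of_tendsto' htend fun n => ?_
    rw [← hCu n]
    exact measure_mono (Set.inter_subset_inter_right _ (Set.subset_iUnion C n))
  -- the union with `C'`
  have hV : (⋃ n, C n) ∪ C' ∈ 𝒞 := by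
    have := hU (fun k => if k = 0 then (⋃ n, C n) else C') (by
      intro k
      by_cases hk : k = 0
      · simp only [hk, if_true]; exact hCm
      · simp only [hk, if_false]; exact hC')
    have e : (⋃ k : ℕ, if k = 0 then (⋃ n, C n) else C') = (⋃ n, C n) ∪ C' := by
      ext x
      simp only [Set.mem_iUnion, Set.mem_union]
      constructor
      · rintro ⟨k, hk⟩
        by_cases h : k = 0
        · simp only [h, if_true, Set.mem_iUnion] at hk; exact Or.inl hk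
        · simp only [h, if_false] at hk; exact Or.inr hk
      · rintro (h | h)
        · exact ⟨0, by simpa using h⟩
        · exact ⟨1, by simpa using h⟩
    rwa [e] at this
  have hle2 : μ (D ∩ ((⋃ n, C n) ∪ C')) ≤ μ (D ∩ ⋃ n, C n) :=
    (le_sSup (by exact ⟨_, hV, rfl⟩)).trans hle
  have hsplit : μ (D ∩ ((⋃ n, C n) ∪ C')) = μ (D ∩ ⋃ n, C n) + μ (D ∩ (C' \ ⋃ n, C n)) := by
    rw [← measure_union]
    · congr 1
      ext x
      simp only [Set.mem_inter_iff, Set.mem_union, Set.mem_sdiff]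
      tauto
    · rw [Set.disjoint_left]
      rintro x ⟨_, hx⟩ ⟨_, _, hx'⟩
      exact hx' hx
    · exact hD.inter ((hm _ hC').diff (hm _ hCm))
  rw [hsplit] at hle2
  have hfin' : μ (D ∩ ⋃ n, C n) ≠ ⊤ := ((measure_mono Set.inter_subset_left).trans_lt hfin).ne
  have h3 : μ (D ∩ ⋃ n, C n) + μ (D ∩ (C' \ ⋃ n, C n)) ≤ μ (D ∩ ⋃ n, C n) + 0 := by
    simpa using hle2
  exact nonpos_iff_eq_zero.1 ((ENNReal.add_le_add_iff_left hfin').1 h3)

end Pool.Agent.Helper318.L1D
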