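import Pool.Agent.Helper318.L1D.Defs

set_option autoImplicit false

open MeasureTheory Set Filter Topology

namespace Pool.Agent.Helper318.L1D



theorem schur_atom_tendsto {𝕜 : Type*} [RCLike 𝕜] {Ω : Type*} [MeasurableSpace Ω] {μ : Measure Ω}
    (φ : Lp 𝕜 1 μ →+ ℝ) (hφ : ∀ g, |φ g| ≤ ‖g‖) (K : ℝ) (g : ℕ → Lp 𝕜 1 μ) (hg : TwoSeq K g) :
    Tendsto (fun n => φ (g n)) atTop (𝓝 0) := by
  classical
  have hS : ∀ S : Finset ℕ, ∑ n ∈ S, |φ (g n)| ≤ K * √(S.card) := by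
    intro S
    refine le_trans ?_ (hg S (fun n => decide (0 ≤ φ (g n))))
    refine le_trans ?_ (hφ _)
    refine le_trans (le_of_eq ?_) (le_abs_self _)
    rw [map_sum]
    refine Finset.sum_congr rfl fun n _ => ?_
    unfold sv
    by_cases h : 0 ≤ φ (g n)
    · simp [h, abs_of_nonneg h]
    · simp [h, abs_of_neg (not_le.1 h)]
  rw [Metric.tendsto_nhds]
  intro δ hδ
  rw [← Nat.cofinite_eq_atTop, Filter.eventually_cofinite]
  by_contra hinf
  have hinf' : {n | ¬ dist (φ (g n)) 0 < δ}.Infinite := hinf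
  obtain ⟨m, hm⟩ := exists_nat_gt ((K / δ) ^ 2)
  obtain ⟨S, hSs, hSc⟩ := hinf'.exists_subset_card_eq (m + 1)
  have h1 := hS S
  have h2 : (S.card : ℝ) * δ ≤ ∑ n ∈ S, |φ (g n)| := by
    rw [← nsmul_eq_mul]
    refine Finset.card_nsmul_le_sum _ _ _ fun n hn => ?_
    have := hSs hn
    simp only [Set.mem_ofPred_eq, Real.dist_eq, sub_zero, not_lt] at this
    exact this
  rw [hSc] at h1 h2
  have h3 : ((m + 1 : ℕ) : ℝ) * δ ≤ K * √((m + 1 : ℕ) : ℝ) := h2.trans h1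
  have hpos : 0 < √((m + 1 : ℕ) : ℝ) := Real.sqrt_pos.2 (by positivity)
  have h4 : √((m + 1 : ℕ) : ℝ) * √((m + 1 : ℕ) : ℝ) = ((m + 1 : ℕ) : ℝ) :=
    Real.mul_self_sqrt (by positivity)
  have h5 : √((m + 1 : ℕ) : ℝ) * δ ≤ K := by
    have : (√((m + 1 : ℕ) : ℝ) * δ) * √((m + 1 : ℕ) : ℝ) ≤ K * √((m + 1 : ℕ) : ℝ) := by
      calc (√((m + 1 : ℕ) : ℝ) * δ) * √((m + 1 : ℕ) : ℝ)
          = (√((m + 1 : ℕ) : ℝ) * √((m + 1 : ℕ) : ℝ)) * δ := by ring
        _ = ((m + 1 : ℕ) : ℝ) * δ := by rw [h4]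
        _ ≤ _ := h3
    exact le_of_mul_le_mul_right this hpos
  have h6 : √((m + 1 : ℕ) : ℝ) ≤ K / δ := by
    rw [le_div_iff₀ hδ]; exact h5
  have h7 : ((m + 1 : ℕ) : ℝ) ≤ (K / δ) ^ 2 := by
    rw [← h4, pow_two]
    exact mul_le_mul h6 h6 hpos.le (hpos.le.trans h6)
  push_cast at h7
  linarith

theorem schur_atom_abs {𝕜 : Type*} [RCLike 𝕜] {Ω : Type*} [MeasurableSpace Ω] {μ : Measure Ω}
    {A : Set Ω} (hA : IsAtomSet μ A) (f : Ω → ℝ) (hf : Measurable f) :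
    ∫ ω in A, |f ω| ∂μ = |∫ ω in A, f ω ∂μ| := by
  obtain ⟨hAm, hAp, hAt⟩ := hA
  have hB : MeasurableSet (A ∩ {ω | 0 ≤ f ω}) :=
    hAm.inter (measurableSet_le measurable_const hf)
  rcases hAt (A ∩ {ω | 0 ≤ f ω}) Set.inter_subset_left hB with h | h
  · have hae : ∀ᵐ ω ∂(μ.restrict A), |f ω| = - f ω := by
      rw [ae_restrict_iff' hAm]
      have : ∀ᵐ ω ∂μ, ω ∉ A ∩ {ω | 0 ≤ f ω} := measure_eq_zero_iff_ae_notMem.1 h
      filter_upwards [this] with ω hω hωA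
      have : ¬ 0 ≤ f ω := fun h0 => hω ⟨hωA, h0⟩
      exact abs_of_neg (not_le.1 this)
    have e1 : ∫ ω in A, |f ω| ∂μ = - ∫ ω in A, f ω ∂μ := by
      rw [integral_congr_ae hae, integral_neg]
    have e2 : 0 ≤ ∫ ω in A, |f ω| ∂μ := integral_nonneg fun _ => abs_nonneg _
    rw [e1] at e2 ⊢
    rw [abs_of_nonpos (by linarith)]
  · have hae : ∀ᵐ ω ∂(μ.restrict A), |f ω| = f ω := by
      rw [ae_restrict_iff' hAm]
      have : ∀ᵐ ω ∂μ, ω ∉ A \ (A ∩ {ω | 0 ≤ f ω}) := measure_eq_zero_iff_ae_notMem.1 h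
      filter_upwards [this] with ω hω hωA
      have : 0 ≤ f ω := by
        by_contra h0
        exact hω ⟨hωA, fun h' => h0 h'.2⟩
      exact abs_of_nonneg this
    have e1 : ∫ ω in A, |f ω| ∂μ = ∫ ω in A, f ω ∂μ := by
      rw [integral_congr_ae hae]
    have e2 : 0 ≤ ∫ ω in A, |f ω| ∂μ := integral_nonneg fun _ => abs_nonneg _
    rw [e1] at e2 ⊢
    rw [abs_of_nonneg e2]

theorem schur_atom_lin {𝕜 : Type*} [RCLike 𝕜] {Ω : Type*} [MeasurableSpace Ω] {μ : Measure Ω}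
    {A : Set Ω} (hA : IsAtomSet μ A) (L : 𝕜 →L[ℝ] ℝ) (hL : ∀ z, |L z| ≤ ‖z‖)
    (K : ℝ) (g : ℕ → Lp 𝕜 1 μ) (hg : TwoSeq K g) :
    Tendsto (fun n => ∫ ω in A, |L (g n ω)| ∂μ) atTop (𝓝 0) := by
  have hint : ∀ g : Lp 𝕜 1 μ, Integrable (fun ω => L (g ω)) μ := fun g =>
    L.integrable_comp (L1.integrable_coeFn g)
  let φ : Lp 𝕜 1 μ →+ ℝ := AddMonoidHom.mk' (fun g => ∫ ω in A, L (g ω) ∂μ) (by
    intro g h
    rw [← integral_add (hint g).integrableOn (hint h).integrableOn]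
    refine integral_congr_ae (ae_restrict_of_ae ?_)
    filter_upwards [Lp.coeFn_add g h] with ω hω
    rw [hω, Pi.add_apply, map_add])
  have hφ : ∀ g, |φ g| ≤ ‖g‖ := by
    intro g
    have h0 : φ g = ∫ ω in A, L (g ω) ∂μ := rfl
    rw [h0]
    calc |∫ ω in A, L (g ω) ∂μ| ≤ ∫ ω in A, |L (g ω)| ∂μ := abs_integral_le_integral_abs
      _ ≤ ∫ ω in A, ‖g ω‖ ∂μ := by
          refine integral_mono (hint g).abs.integrableOn (L1.integrable_coeFn g).norm.integrableOn ?_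
          intro ω
          exact hL _
      _ ≤ ∫ ω, ‖g ω‖ ∂μ := by
          refine setIntegral_le_integral (L1.integrable_coeFn g).norm ?_
          exact Filter.Eventually.of_forall fun ω => norm_nonneg _
      _ = ‖g‖ := (L1.norm_eq_integral_norm g).symm
  have h := schur_atom_tendsto φ hφ K g hg
  have h2 := h.abs
  rw [abs_zero] at h2
  refine h2.congr fun n => ?_
  have h0 : φ (g n) = ∫ ω in A, L (g n ω) ∂μ := rfl
  rw [h0]
  exact (schur_atom_abs (𝕜 := 𝕜) hA _ (L.continuous.measurable.comp (Lp.stronglyMeasurable (g n)).measurable)).symm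

theorem schur_atom {𝕜 : Type*} [RCLike 𝕜] {Ω : Type*} [MeasurableSpace Ω] {μ : Measure Ω}
    {A : Set Ω} (hA : IsAtomSet μ A) (hfin : μ A < ⊤) : SchurSet 𝕜 μ A := by
  refine ⟨hA.1, fun K g hg => ?_⟩
  have h1 := schur_atom_lin hA (RCLike.reCLM (K := 𝕜)) (fun z => RCLike.abs_re_le_norm z) K g hg
  have h2 := schur_atom_lin hA (RCLike.imCLM (K := 𝕜)) (fun z => RCLike.abs_im_le_norm z) K g hg
  have h3 := h1.add h2
  rw [add_zero] at h3
  refine squeeze_zero (fun n => integral_nonneg fun _ => norm_nonneg _) (fun n => ?_) h3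
  have hi := L1.integrable_coeFn (g n)
  have hr : Integrable (fun ω => |(RCLike.reCLM (K := 𝕜)) (g n ω)|) μ :=
    ((RCLike.reCLM (K := 𝕜)).integrable_comp hi).abs
  have him : Integrable (fun ω => |(RCLike.imCLM (K := 𝕜)) (g n ω)|) μ :=
    ((RCLike.imCLM (K := 𝕜)).integrable_comp hi).abs
  rw [← integral_add hr.integrableOn him.integrableOn]
  refine integral_mono hi.norm.integrableOn (hr.add him).integrableOn ?_
  intro ω
  have hz : g n ω = (RCLike.re (g n ω) : 𝕜) + (RCLike.im (g n ω) : 𝕜) * RCLike.I := (RCLike.re_add_im (g n ω)).symm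
  have : ‖g n ω‖ ≤ |RCLike.re (g n ω)| + |RCLike.im (g n ω)| := by
    conv_lhs => rw [hz]
    refine (norm_add_le _ _).trans ?_
    rw [norm_mul, RCLike.norm_ofReal, RCLike.norm_ofReal]
    have : ‖(RCLike.I : 𝕜)‖ ≤ 1 := by
      by_cases h0 : (RCLike.I : 𝕜) = 0
      · simp [h0]
      · exact (RCLike.norm_I_of_ne_zero h0).le
    nlinarith [abs_nonneg (RCLike.im (g n ω))]
  simpa using this
end Pool.Agent.Helper318.L1D
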