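import Pool.Agent.Helper318.L1D.Defs

set_option autoImplicit false

open MeasureTheory Set Filter Topology

namespace Pool.Agent.Helper318.L1D



theorem avg_max {ι V : Type*} [Fintype ι] [DecidableEq ι] [NormedAddCommGroup V]
    [NormedSpace ℝ V] (v : ι → V) (i₀ : ι) :
    (2 : ℝ) ^ Fintype.card ι * ‖v i₀‖ ≤ ∑ ε : ι → Bool, ‖∑ i, sv (ε i) (v i)‖ := by
  have hinv : Function.Involutive
      (fun (ε : ι → Bool) (i : ι) => if i = i₀ then ε i else !(ε i)) := by
    intro ε
    funext i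
    by_cases h : i = i₀
    · simp [h]
    · simp [h]
  have hsum : ∑ ε : ι → Bool, ‖∑ i, sv (if i = i₀ then ε i else !(ε i)) (v i)‖ =
      ∑ ε : ι → Bool, ‖∑ i, sv (ε i) (v i)‖ :=
    Equiv.sum_comp hinv.toPerm (fun ε : ι → Bool => ‖∑ i, sv (ε i) (v i)‖)
  have hone : ∀ ε : ι → Bool, 2 * ‖v i₀‖ ≤ ‖∑ i, sv (ε i) (v i)‖ +
      ‖∑ i, sv (if i = i₀ then ε i else !(ε i)) (v i)‖ := by
    intro ε
    refine le_trans (le_of_eq ?_) (norm_add_le _ _)
    rw [← Finset.sum_add_distrib, Finset.sum_eq_single i₀]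
    · simp only [if_true]
      rw [← two_smul ℝ, norm_smul]
      have : ‖sv (ε i₀) (v i₀)‖ = ‖v i₀‖ := by
        unfold sv
        split_ifs
        · rfl
        · exact norm_neg _
      rw [this]
      norm_num
    · intro b _ hb
      simp only [hb, if_false]
      cases ε b <;> simp [sv]
    · intro h
      exact absurd (Finset.mem_univ _) h
  have h2 : ∑ ε : ι → Bool, 2 * ‖v i₀‖ ≤ ∑ ε : ι → Bool, (‖∑ i, sv (ε i) (v i)‖ +
      ‖∑ i, sv (if i = i₀ then ε i else !(ε i)) (v i)‖) :=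
    Finset.sum_le_sum fun ε _ => hone ε
  rw [Finset.sum_add_distrib, hsum, Finset.sum_const, Finset.card_univ, Fintype.card_fun,
    Fintype.card_bool, nsmul_eq_mul] at h2
  push_cast at h2
  linarith

end Pool.Agent.Helper318.L1D
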