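import Pool.Agent.Helper318.L1D.Defs

set_option autoImplicit false

open MeasureTheory Set Filter Topology

namespace Pool.Agent.Helper318.L1D



theorem mx_integrable {𝕜 : Type*} [RCLike 𝕜] {Ω : Type*} [MeasurableSpace Ω] {μ : Measure Ω}
    (g : ℕ → Lp 𝕜 1 μ) (S : Finset ℕ) :
    Integrable (fun ω => ((S.sup fun n => ‖g n ω‖₊ : NNReal) : ℝ)) μ := by
  induction S using Finset.induction_on with
  | empty =>
    simp only [Finset.sup_empty, bot_eq_zero, NNReal.coe_zero]
    exact integrable_zero _ _ _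
  | insert a S ha ih =>
    have h1 : Integrable (fun ω => ‖g a ω‖) μ := (L1.integrable_coeFn (g a)).norm
    have h2 : (fun ω => (((insert a S).sup fun n => ‖g n ω‖₊ : NNReal) : ℝ))
        = (fun ω => ‖g a ω‖) ⊔ (fun ω => ((S.sup fun n => ‖g n ω‖₊ : NNReal) : ℝ)) := by
      funext ω
      rw [Finset.sup_insert, Pi.sup_apply]
      exact NNReal.coe_max _ _
    rw [h2]
    exact h1.sup ih

end Pool.Agent.Helper318.L1D
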