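import Pool.Agent.Helper318.L1D.Defs
import Pool.Agent.Helper318.L1D.P_avg_max
import Pool.Agent.Helper318.L1D.P_mx_integrable

set_option autoImplicit false

open MeasureTheory Set Filter Topology

namespace Pool.Agent.Helper318.L1D



theorem mxb_sv {𝕜 : Type*} [RCLike 𝕜] {Ω : Type*} [MeasurableSpace Ω] {μ : Measure Ω}
    (b : Bool) (g : Lp 𝕜 1 μ) :
    ((sv b g : Lp 𝕜 1 μ) : Ω → 𝕜) =ᵐ[μ] fun ω => sv b (g ω) := by
  unfold sv
  cases b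
  · exact Lp.coeFn_neg g
  · exact ae_eq_refl (g : Ω → 𝕜)

theorem mxb_pt {𝕜 : Type*} [RCLike 𝕜] (S : Finset ℕ) (v : ℕ → 𝕜) :
    (2 : ℝ) ^ S.card * ((S.sup fun n => ‖v n‖₊ : NNReal) : ℝ) ≤
      ∑ ε : S → Bool, ‖∑ i : S, sv (ε i) (v i)‖ := by
  rcases S.eq_empty_or_nonempty with rfl | hne
  · simp
  obtain ⟨n₀, hn₀, he⟩ := Finset.exists_mem_eq_sup S hne (fun n => ‖v n‖₊)
  rw [he]
  have h := avg_max (fun i : S => v i) ⟨n₀, hn₀⟩
  rw [Fintype.card_coe] at h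
  exact h

theorem mx_bound {𝕜 : Type*} [RCLike 𝕜] {Ω : Type*} [MeasurableSpace Ω] {μ : Measure Ω} {K : ℝ}
    {g : ℕ → Lp 𝕜 1 μ} (hg : TwoSeq K g) (S : Finset ℕ) :
    ∫ ω, ((S.sup fun n => ‖g n ω‖₊ : NNReal) : ℝ) ∂μ ≤ K * √(S.card) := by
  let G : (S → Bool) → Lp 𝕜 1 μ := fun ε => ∑ i : S, sv (ε i) (g i)
  have hG : ∀ ε : S → Bool, (G ε : Ω → 𝕜) =ᵐ[μ] fun ω => ∑ i : S, sv (ε i) (g i ω) := by
    intro ε
    have h1 := Lp.coeFn_finsetSum (Finset.univ : Finset S) (fun i : S => sv (ε i) (g i))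
    have h2 : ∀ᵐ ω ∂μ, ∀ i : S, ((sv (ε i) (g i) : Lp 𝕜 1 μ) : Ω → 𝕜) ω = sv (ε i) (g i ω) :=
      ae_all_iff.2 (fun i => mxb_sv (ε i) (g i))
    filter_upwards [h1, h2] with ω hω1 hω2
    rw [hω1, Finset.sum_apply]
    exact Finset.sum_congr rfl (fun i _ => hω2 i)
  have hGn : ∀ ε : S → Bool, ‖G ε‖ ≤ K * √(S.card) := by
    intro ε
    have h1 := hg S (fun n => if h : n ∈ S then ε ⟨n, h⟩ else true)
    refine le_trans (le_of_eq ?_) h1
    congr 1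
    show ∑ i : S, sv (ε i) (g i) = _
    rw [← Finset.sum_coe_sort S (fun n => sv (if h : n ∈ S then ε ⟨n, h⟩ else true) (g n))]
    refine Finset.sum_congr rfl (fun i _ => ?_)
    rw [dif_pos i.2]
  have hae : ∀ᵐ ω ∂μ, ∀ ε : S → Bool, (G ε : Ω → 𝕜) ω = ∑ i : S, sv (ε i) (g i ω) :=
    ae_all_iff.2 hG
  have hle : ∫ ω, (2 : ℝ) ^ S.card * ((S.sup fun n => ‖g n ω‖₊ : NNReal) : ℝ) ∂μ
      ≤ ∫ ω, ∑ ε : S → Bool, ‖G ε ω‖ ∂μ := by
    refine integral_mono_ae ((mx_integrable g S).const_mul _) ?_ ?_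
    · exact integrable_finsetSum _ (fun ε _ => (L1.integrable_coeFn (G ε)).norm)
    · filter_upwards [hae] with ω hω
      refine (mxb_pt S (fun n => g n ω)).trans (le_of_eq ?_)
      exact Finset.sum_congr rfl (fun ε _ => by rw [hω ε])
  rw [integral_const_mul, integral_finsetSum _ (fun ε _ => (L1.integrable_coeFn (G ε)).norm)] at hle
  have h3 : ∑ ε : S → Bool, ∫ ω, ‖G ε ω‖ ∂μ ≤ ∑ _ε : S → Bool, K * √(S.card) := by
    refine Finset.sum_le_sum (fun ε _ => ?_)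
    rw [← L1.norm_eq_integral_norm]
    exact hGn ε
  rw [Finset.sum_const, Finset.card_univ, Fintype.card_fun, Fintype.card_bool, Fintype.card_coe,
    nsmul_eq_mul] at h3
  push_cast at h3
  have h4 := hle.trans h3
  exact le_of_mul_le_mul_left h4 (by positivity)

end Pool.Agent.Helper318.L1D
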