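import Pool.Agent.Helper318.L1D.Defs
import Pool.Agent.Helper318.L1D.P_mx_integrable
import Pool.Agent.Helper318.L1D.P_mx_bound

set_option autoImplicit false

open MeasureTheory Set Filter Topology

namespace Pool.Agent.Helper318.L1D



theorem dominate {𝕜 : Type*} [RCLike 𝕜] {Ω : Type*} [MeasurableSpace Ω] {μ : Measure Ω} {K : ℝ}
    {g : ℕ → Lp 𝕜 1 μ} (hg : TwoSeq K g) {ε : ℝ} (hε : 0 < ε) :
    ∃ ψ : Ω → ℝ, Integrable ψ μ ∧ (∀ ω, 0 ≤ ψ ω) ∧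
      ∀ n, ∫ ω, max (‖g n ω‖ - ψ ω) 0 ∂μ ≤ ε := by
  by_contra hcon
  push Not at hcon
  have hmx0 : ∀ (S : Finset ℕ) (ω : Ω), 0 ≤ ((S.sup fun n => ‖g n ω‖₊ : NNReal) : ℝ) :=
    fun S ω => NNReal.coe_nonneg _
  have hstep : ∀ S : Finset ℕ, ∃ n,
      (∫ ω, ((S.sup fun n => ‖g n ω‖₊ : NNReal) : ℝ) ∂μ) + ε ≤
      ∫ ω, (((insert n S).sup fun n => ‖g n ω‖₊ : NNReal) : ℝ) ∂μ := by
    intro S
    obtain ⟨n, hn⟩ := hcon (fun ω => ((S.sup fun n => ‖g n ω‖₊ : NNReal) : ℝ))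
      (mx_integrable g S) (hmx0 S)
    refine ⟨n, ?_⟩
    have h1 : ∀ ω, (((insert n S).sup fun n => ‖g n ω‖₊ : NNReal) : ℝ) =
        ((S.sup fun n => ‖g n ω‖₊ : NNReal) : ℝ) +
          max (‖g n ω‖ - ((S.sup fun n => ‖g n ω‖₊ : NNReal) : ℝ)) 0 := by
      intro ω
      rw [Finset.sup_insert]
      rw [show ((‖g n ω‖₊ ⊔ (S.sup fun n => ‖g n ω‖₊) : NNReal) : ℝ) = max (‖g n ω‖₊ : ℝ) ((S.sup fun n => ‖g n ω‖₊ : NNReal) : ℝ) from NNReal.coe_max _ _, coe_nnnorm]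
      rcases le_total ‖g n ω‖ ((S.sup fun n => ‖g n ω‖₊ : NNReal) : ℝ) with h | h
      · rw [max_eq_right h, max_eq_right (by linarith)]; ring
      · rw [max_eq_left h, max_eq_left (by linarith)]; ring
    have h2 : Integrable (fun ω => max (‖g n ω‖ - ((S.sup fun n => ‖g n ω‖₊ : NNReal) : ℝ)) 0) μ := by
      have h3 : Integrable (fun ω => ‖g n ω‖ - ((S.sup fun n => ‖g n ω‖₊ : NNReal) : ℝ)) μ :=
        (L1.integrable_coeFn (g n)).norm.sub (mx_integrable g S)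
      exact h3.pos_part
    have h4 : ∫ ω, (((insert n S).sup fun n => ‖g n ω‖₊ : NNReal) : ℝ) ∂μ =
        (∫ ω, ((S.sup fun n => ‖g n ω‖₊ : NNReal) : ℝ) ∂μ) +
          ∫ ω, max (‖g n ω‖ - ((S.sup fun n => ‖g n ω‖₊ : NNReal) : ℝ)) 0 ∂μ := by
      rw [← integral_add (mx_integrable g S) h2]
      exact integral_congr_ae (Filter.Eventually.of_forall h1)
    rw [h4]
    linarith
  have hk : ∀ k : ℕ, ∃ S : Finset ℕ, S.card ≤ k ∧
      k * ε ≤ ∫ ω, ((S.sup fun n => ‖g n ω‖₊ : NNReal) : ℝ) ∂μ := by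
    intro k
    induction k with
    | zero =>
      refine ⟨∅, le_rfl, ?_⟩
      simp
    | succ k ih =>
      obtain ⟨S, hS, hSk⟩ := ih
      obtain ⟨n, hn⟩ := hstep S
      refine ⟨insert n S, (Finset.card_insert_le _ _).trans (by omega), ?_⟩
      push_cast
      linarith
  obtain ⟨k, hk1⟩ := exists_nat_gt ((|K| / ε) ^ 2 + 1)
  obtain ⟨S, hS, hSk⟩ := hk k
  have h5 := mx_bound hg S
  have hkpos : (0 : ℝ) < k := by nlinarith [sq_nonneg (|K| / ε)]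
  have h6 : K * √(S.card) ≤ |K| * √k := by
    refine (mul_le_mul_of_nonneg_right (le_abs_self K) (Real.sqrt_nonneg _)).trans ?_
    refine mul_le_mul_of_nonneg_left (Real.sqrt_le_sqrt ?_) (abs_nonneg K)
    exact_mod_cast hS
  have h7 : √(k : ℝ) * √(k : ℝ) = k := Real.mul_self_sqrt hkpos.le
  have h8 : 0 < √(k : ℝ) := Real.sqrt_pos.mpr hkpos
  have h9 : √(k : ℝ) * ε ≤ |K| := by
    have : √(k : ℝ) * (√(k : ℝ) * ε) ≤ √(k : ℝ) * |K| := by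
      rw [← mul_assoc, h7]
      linarith
    exact le_of_mul_le_mul_left this h8
  have h10 : √(k : ℝ) ≤ |K| / ε := by
    rw [le_div_iff₀ hε]; exact h9
  have h11 : (k : ℝ) ≤ (|K| / ε) ^ 2 := by
    rw [← h7, ← sq]
    exact pow_le_pow_left₀ h8.le h10 2
  linarith

end Pool.Agent.Helper318.L1D
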