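import Pool.Agent.Helper318.L1D.Defs
import Pool.Agent.Helper318.L1D.P_dominate

set_option autoImplicit false

open MeasureTheory Set Filter Topology

namespace Pool.Agent.Helper318.L1D



theorem schur_union {𝕜 : Type*} [RCLike 𝕜] {Ω : Type*} [MeasurableSpace Ω] {μ : Measure Ω}
    (B : ℕ → Set Ω) (hB : ∀ n, SchurSet 𝕜 μ (B n)) : SchurSet 𝕜 μ (⋃ n, B n) := by
  have hUm : MeasurableSet (⋃ n, B n) := MeasurableSet.iUnion fun n => (hB n).1
  refine ⟨hUm, ?_⟩
  intro K g hg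
  rw [Metric.tendsto_atTop]
  intro ε hε
  obtain ⟨ψ, hψi, hψ0, hψ⟩ := dominate hg (ε := ε / 4) (by positivity)
  let R : ℕ → Set Ω := fun N => (⋃ n, B n) \ ⋃ k ∈ Finset.range (N + 1), B k
  have hRm : ∀ N, MeasurableSet (R N) := fun N =>
    hUm.diff (Finset.measurableSet_biUnion _ fun k _ => (hB k).1)
  have hRanti : Antitone R := by
    intro N M hNM ω hω
    refine ⟨hω.1, fun h => hω.2 ?_⟩
    obtain ⟨k, hk, hkB⟩ := mem_iUnion₂.1 h
    refine mem_iUnion₂.2 ⟨k, ?_, hkB⟩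
    rw [Finset.mem_range] at hk ⊢
    omega
  have hRlim : Tendsto (fun N => ∫ ω in R N, ψ ω ∂μ) atTop (𝓝 0) := by
    have h1 := tendsto_setIntegral_of_antitone (f := ψ) hRm hRanti ⟨0, hψi.integrableOn⟩
    have h2 : ⋂ N, R N = ∅ := by
      rw [eq_empty_iff_forall_notMem]
      intro ω hω
      rw [mem_iInter] at hω
      obtain ⟨k, hk⟩ := mem_iUnion.1 (hω 0).1
      exact (hω k).2 (mem_iUnion₂.2 ⟨k, Finset.self_mem_range_succ k, hk⟩)
    rw [h2, setIntegral_empty] at h1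
    exact h1
  obtain ⟨N, hN⟩ := (hRlim.eventually (gt_mem_nhds (show (0:ℝ) < ε / 4 by positivity))).exists
  have hsum : Tendsto (fun n => ∑ k ∈ Finset.range (N + 1), ∫ ω in B k, ‖g n ω‖ ∂μ) atTop
      (𝓝 0) := by
    have h1 := tendsto_finsetSum (Finset.range (N + 1)) (fun k _ => (hB k).2 K g hg)
    simpa using h1
  obtain ⟨n0, hn0⟩ := eventually_atTop.1
    (hsum.eventually (gt_mem_nhds (show (0:ℝ) < ε / 4 by positivity)))
  refine ⟨n0, fun n hn => ?_⟩
  have hgi : Integrable (fun ω => ‖g n ω‖) μ := (L1.integrable_coeFn (g n)).norm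
  have h0 : 0 ≤ ∫ ω in ⋃ n, B n, ‖g n ω‖ ∂μ := integral_nonneg fun ω => norm_nonneg _
  rw [Real.dist_eq, sub_zero, abs_of_nonneg h0]
  have hmaxi : Integrable (fun ω => max (‖g n ω‖ - ψ ω) 0) μ := (hgi.sub hψi).pos_part
  have hI1 : ∀ k ∈ Finset.range (N + 1), Integrable ((B k).indicator fun ω => ‖g n ω‖) μ :=
    fun k _ => hgi.indicator (hB k).1
  have hI2 : Integrable ((R N).indicator ψ) μ := hψi.indicator (hRm N)
  have key : ∫ ω in ⋃ n, B n, ‖g n ω‖ ∂μ ≤
      (∑ k ∈ Finset.range (N + 1), ∫ ω in B k, ‖g n ω‖ ∂μ) +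
        ∫ ω, max (‖g n ω‖ - ψ ω) 0 ∂μ + ∫ ω in R N, ψ ω ∂μ := by
    rw [← integral_indicator hUm, ← integral_indicator (hRm N)]
    have e1 : ∑ k ∈ Finset.range (N + 1), ∫ ω in B k, ‖g n ω‖ ∂μ =
        ∫ ω, ∑ k ∈ Finset.range (N + 1), (B k).indicator (fun ω => ‖g n ω‖) ω ∂μ := by
      rw [integral_finsetSum _ hI1]
      exact Finset.sum_congr rfl fun k _ => (integral_indicator (hB k).1).symm
    have hI3 : Integrable (fun ω => ∑ k ∈ Finset.range (N + 1),
        (B k).indicator (fun ω => ‖g n ω‖) ω) μ := integrable_finsetSum _ hI1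
    have hI4 : Integrable (fun ω => (∑ k ∈ Finset.range (N + 1),
        (B k).indicator (fun ω => ‖g n ω‖) ω) + max (‖g n ω‖ - ψ ω) 0) μ := hI3.add hmaxi
    rw [e1, ← integral_add hI3 hmaxi, ← integral_add hI4 hI2]
    apply integral_mono (hgi.indicator hUm) (hI4.add hI2)
    intro ω
    change (⋃ n, B n).indicator (fun ω => ‖g n ω‖) ω ≤
      (∑ k ∈ Finset.range (N + 1), (B k).indicator (fun ω => ‖g n ω‖) ω) +
        max (‖g n ω‖ - ψ ω) 0 + (R N).indicator ψ ω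
    have hs0 : ∀ k, 0 ≤ (B k).indicator (fun ω => ‖g n ω‖) ω := fun k =>
      indicator_nonneg (fun _ _ => norm_nonneg _) ω
    have hs1 : 0 ≤ ∑ k ∈ Finset.range (N + 1), (B k).indicator (fun ω => ‖g n ω‖) ω :=
      Finset.sum_nonneg fun k _ => hs0 k
    have hr0 : 0 ≤ (R N).indicator ψ ω := indicator_nonneg (fun ω _ => hψ0 ω) ω
    have hm0 : 0 ≤ max (‖g n ω‖ - ψ ω) 0 := le_max_right _ _
    by_cases hω : ω ∈ ⋃ n, B n
    · rw [indicator_of_mem hω]
      by_cases hω2 : ω ∈ ⋃ k ∈ Finset.range (N + 1), B k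
      · obtain ⟨k, hk, hkB⟩ := mem_iUnion₂.1 hω2
        have h3 := Finset.single_le_sum (f := fun k => (B k).indicator (fun ω => ‖g n ω‖) ω)
          (fun k _ => hs0 k) hk
        simp only [indicator_of_mem hkB] at h3
        linarith
      · have h4 : ω ∈ R N := ⟨hω, hω2⟩
        rw [indicator_of_mem h4]
        have := le_max_left (‖g n ω‖ - ψ ω) 0
        linarith
    · rw [indicator_of_notMem hω]
      positivity
  have h1 := hn0 n hn
  have h2 := hψ n
  linarith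

end Pool.Agent.Helper318.L1D
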