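import Pool.Agent.Helper318.L1D.Defs
import Pool.Agent.Helper318.L1D.P_schur_atom
import Pool.Agent.Helper318.L1D.P_schur_union
import Pool.Agent.Helper318.L1D.P_exhaust

set_option autoImplicit false

open MeasureTheory Set Filter Topology

namespace Pool.Agent.Helper318.L1D



theorem schur_of_no_piece {𝕜 : Type*} [RCLike 𝕜] {Ω : Type*} [MeasurableSpace Ω]
    {μ : Measure Ω} {D : Set Ω} (hD : MeasurableSet D) (hfin : μ D < ⊤)
    (h : ∀ E ⊆ D, ¬ AtomlessPiece μ E) : SchurSet 𝕜 μ D := by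
  obtain ⟨C, hCmem, hC⟩ := exhaust (μ := μ) hD hfin {C | SchurSet 𝕜 μ C ∧ C ⊆ D}
    ⟨⟨MeasurableSet.empty, fun K g _ => by simp⟩, empty_subset _⟩
    (fun C hC => hC.1.1)
    (fun C hC => ⟨schur_union C fun n => (hC n).1, iUnion_subset fun n => (hC n).2⟩)
  have h0 : μ (D \ C) = 0 := by
    by_contra hne
    have hpos : 0 < μ (D \ C) := pos_iff_ne_zero.mpr hne
    have hmeas : MeasurableSet (D \ C) := hD.diff hCmem.1.1
    have hlt : μ (D \ C) < ⊤ := lt_of_le_of_lt (measure_mono diff_subset) hfin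
    have h1 : ∃ A ⊆ D \ C, IsAtomSet μ A := by
      by_contra hno
      push Not at hno
      exact h (D \ C) diff_subset ⟨hmeas, hpos, hlt, hno⟩
    obtain ⟨A, hA, hAt⟩ := h1
    have hAD : A ⊆ D := hA.trans diff_subset
    have h2 := hC A ⟨schur_atom hAt (lt_of_le_of_lt (measure_mono hAD) hfin), hAD⟩
    have h3 : D ∩ (A \ C) = A := by
      ext x
      constructor
      · exact fun hx => hx.2.1
      · exact fun hx => ⟨hAD hx, hx, (hA hx).2⟩
    rw [h3] at h2
    exact absurd h2 hAt.2.1.ne'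
  have hae : D =ᵐ[μ] C := by
    rw [ae_eq_set]
    refine ⟨h0, ?_⟩
    rw [diff_eq_empty.mpr hCmem.2]
    exact measure_empty
  refine ⟨hD, fun K g hg => ?_⟩
  have h4 := hCmem.1.2 K g hg
  have h5 : (fun n => ∫ ω in D, ‖g n ω‖ ∂μ) = fun n => ∫ ω in C, ‖g n ω‖ ∂μ := by
    funext n
    exact setIntegral_congr_set hae
  rw [h5]
  exact h4

end Pool.Agent.Helper318.L1D
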