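import Pool.Agent.Helper318.L1D.Defs
import Pool.Agent.Helper318.L1D.P_exhaust
import Pool.Agent.Helper318.L1D.P_schur_of_no_piece

set_option autoImplicit false

open MeasureTheory Set Filter Topology

namespace Pool.Agent.Helper318.L1D



theorem approx (𝕜 : Type*) [RCLike 𝕜] {Ω : Type*} [MeasurableSpace Ω] {μ : Measure Ω}
    {𝓔 : Set (Set Ω)} (h𝓔 : MaxFamily μ 𝓔) {ψ : Ω → ℝ} (hψ : Integrable ψ μ)
    (h0 : ∀ ω, 0 ≤ ψ ω) {ε : ℝ} (hε : 0 < ε) :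
    ∃ (F : Finset (Set Ω)) (M : ℕ) (B : Set Ω), (F : Set (Set Ω)) ⊆ 𝓔 ∧ SchurSet 𝕜 μ B ∧
      ∫ ω in Bᶜ, max (ψ ω - cap F M ω) 0 ∂μ ≤ ε := by
  classical
  -- the set `D`
  obtain ⟨D, hD, hDfin, hDψ⟩ : ∃ D : Set Ω, MeasurableSet D ∧ μ D < ⊤ ∧
      ∫ ω in Dᶜ, ψ ω ∂μ ≤ ε / 2 := by
    have hfin : ∫⁻ ω, ENNReal.ofReal (ψ ω) ∂μ ≠ ⊤ := by
      rw [← ofReal_integral_eq_lintegral_ofReal hψ (Filter.Eventually.of_forall h0)]
      exact ENNReal.ofReal_ne_top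
    obtain ⟨s, hs, hsfin, hlt⟩ := exists_setLIntegral_compl_lt hfin
      (show (ENNReal.ofReal (ε / 2)) ≠ 0 by
        rw [ne_eq, ENNReal.ofReal_eq_zero, not_le]; positivity)
    refine ⟨s, hs, hsfin, ?_⟩
    rw [integral_eq_lintegral_of_nonneg_ae (Filter.Eventually.of_forall h0)
      hψ.1.restrict]
    exact ENNReal.toReal_le_of_le_ofReal (by positivity) hlt.le
  -- exhaustion
  obtain ⟨C, ⟨𝒢, h𝒢, h𝒢c, rfl⟩, hC⟩ := exhaust hD hDfin
    {C | ∃ 𝒢 : Set (Set Ω), 𝒢 ⊆ 𝓔 ∧ 𝒢.Countable ∧ C = ⋃₀ 𝒢}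
    ⟨∅, Set.empty_subset _, Set.countable_empty, by simp⟩
    (by
      rintro C ⟨𝒢, h1, h2, rfl⟩
      exact MeasurableSet.sUnion h2 (fun E hE => (h𝓔.1 E (h1 hE)).1))
    (by
      intro C hC
      choose 𝒢 h1 h2 h3 using hC
      refine ⟨⋃ n, 𝒢 n, Set.iUnion_subset h1, Set.countable_iUnion h2, ?_⟩
      rw [Set.sUnion_iUnion]
      exact Set.iUnion_congr h3)
  have hCm : MeasurableSet (⋃₀ 𝒢) := MeasurableSet.sUnion h𝒢c (fun E hE => (h𝓔.1 E (h𝒢 hE)).1)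
  have hschur : SchurSet 𝕜 μ (D \ ⋃₀ 𝒢) := by
    apply schur_of_no_piece (hD.diff hCm) (lt_of_le_of_lt (measure_mono Set.diff_subset) hDfin)
    intro E hE hpiece
    obtain ⟨E', hE', hpos⟩ := h𝓔.2.2 E hpiece
    have h1 := hC E' ⟨{E'}, by simpa using hE', Set.countable_singleton _, by simp⟩
    have h2 : E ∩ E' ⊆ D ∩ (E' \ ⋃₀ 𝒢) := by
      rintro ω ⟨ha, hb⟩
      exact ⟨(hE ha).1, hb, (hE ha).2⟩
    exact absurd (measure_mono_null h2 h1) hpos.ne'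
  -- finite subfamilies
  obtain ⟨F, hF𝒢, hF⟩ : ∃ F : ℕ → Finset (Set Ω), (∀ k, (F k : Set (Set Ω)) ⊆ 𝒢) ∧
      ∀ E ∈ 𝒢, ∀ᶠ k in atTop, E ∈ F k := by
    rcases Set.eq_empty_or_nonempty 𝒢 with h | h
    · refine ⟨fun _ => ∅, by simp, ?_⟩
      intro E hE
      rw [h] at hE
      exact absurd hE (Set.notMem_empty _)
    · obtain ⟨G, hG⟩ := h𝒢c.exists_eq_range h
      refine ⟨fun k => (Finset.range k).image G, ?_, ?_⟩
      · intro k E hE
        simp only [Finset.coe_image, Set.mem_image] at hE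
        obtain ⟨n, -, rfl⟩ := hE
        rw [hG]
        exact Set.mem_range_self n
      · intro E hE
        rw [hG] at hE
        obtain ⟨n, rfl⟩ := hE
        filter_upwards [eventually_gt_atTop n] with k hk
        exact Finset.mem_image_of_mem G (Finset.mem_range.2 hk)
  have hFm : ∀ k, MeasurableSet (⋃ E ∈ F k, E) := fun k =>
    Finset.measurableSet_biUnion _ (fun E hE => (h𝓔.1 E (h𝒢 (hF𝒢 k hE))).1)
  have hcapm : ∀ k, Measurable (cap (F k) k) := fun k => measurable_const.indicator (hFm k)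
  have hcap0 : ∀ k ω, 0 ≤ cap (F k) k ω := fun k ω =>
    Set.indicator_nonneg (fun _ _ => Nat.cast_nonneg k) ω
  have hfm : ∀ k, AEStronglyMeasurable (fun ω => max (ψ ω - cap (F k) k ω) 0) μ := fun k =>
    ((hψ.aemeasurable.sub (hcapm k).aemeasurable).max aemeasurable_const).aestronglyMeasurable
  have hf0 : ∀ k ω, 0 ≤ max (ψ ω - cap (F k) k ω) 0 := fun k ω => le_max_right _ _
  have hfψ : ∀ k ω, max (ψ ω - cap (F k) k ω) 0 ≤ ψ ω := fun k ω =>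
    max_le (by linarith [hcap0 k ω]) (h0 ω)
  have hfb : ∀ k ω, ‖max (ψ ω - cap (F k) k ω) 0‖ ≤ ψ ω := fun k ω => by
    rw [Real.norm_of_nonneg (hf0 k ω)]; exact hfψ k ω
  have hfi : ∀ k, Integrable (fun ω => max (ψ ω - cap (F k) k ω) 0) μ := fun k =>
    hψ.mono' (hfm k) (Filter.Eventually.of_forall (hfb k))
  have hlim : Tendsto (fun k : ℕ => ∫ ω in D ∩ ⋃₀ 𝒢, max (ψ ω - cap (F k) k ω) 0 ∂μ) atTop
      (𝓝 (∫ ω in D ∩ ⋃₀ 𝒢, (0 : ℝ) ∂μ)) := by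
    apply tendsto_integral_of_dominated_convergence ψ (fun k => (hfm k).restrict)
      hψ.integrableOn (fun k => Filter.Eventually.of_forall (hfb k))
    filter_upwards [ae_restrict_mem (hD.inter hCm)] with ω hω
    obtain ⟨E, hE, hωE⟩ := hω.2
    apply tendsto_const_nhds.congr'
    filter_upwards [hF E hE, eventually_ge_atTop ⌈ψ ω⌉₊] with k hk1 hk2
    have h1 : cap (F k) k ω = k := by
      unfold cap
      rw [Set.indicator_of_mem]
      exact Set.mem_biUnion hk1 hωE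
    rw [h1, max_eq_right]
    have := Nat.le_ceil (ψ ω)
    have h3 : ((⌈ψ ω⌉₊ : ℕ) : ℝ) ≤ k := by exact_mod_cast hk2
    linarith
  rw [integral_zero] at hlim
  obtain ⟨k, hk⟩ := (hlim.eventually_lt_const (show (0 : ℝ) < ε / 2 by positivity)).exists
  refine ⟨F k, k, D \ ⋃₀ 𝒢, (hF𝒢 k).trans h𝒢, hschur, ?_⟩
  have hset : (D \ ⋃₀ 𝒢)ᶜ = Dᶜ ∪ (D ∩ ⋃₀ 𝒢) := by
    ext ω
    simp only [Set.mem_compl_iff, Set.mem_diff, Set.mem_union, Set.mem_inter_iff]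
    tauto
  rw [hset, setIntegral_union (by
      rw [Set.disjoint_left]
      intro ω h1 h2
      exact h1 h2.1) (hD.inter hCm) (hfi k).integrableOn (hfi k).integrableOn]
  have h1 : ∫ ω in Dᶜ, max (ψ ω - cap (F k) k ω) 0 ∂μ ≤ ∫ ω in Dᶜ, ψ ω ∂μ :=
    setIntegral_mono (hfi k).integrableOn hψ.integrableOn (hfψ k)
  linarith

end Pool.Agent.Helper318.L1D
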