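import Pool.Agent.Helper318.L1D.Defs

set_option autoImplicit false

open MeasureTheory Set Filter Topology

namespace Pool.Agent.Helper318.L1D



theorem avg_sq_sg {𝕜 : Type*} [RCLike 𝕜] (b : Bool) (v : 𝕜) :
    sv b v = (if b then (1 : 𝕜) else -1) * v := by
  unfold sv
  split_ifs <;> simp

theorem avg_sq_orth {ι 𝕜 : Type*} [Fintype ι] [DecidableEq ι] [RCLike 𝕜] (i j : ι) :
    ∑ ε : ι → Bool, ((if ε i then (1 : 𝕜) else -1) * (if ε j then (1 : 𝕜) else -1)) =
      if i = j then (2 : 𝕜) ^ Fintype.card ι else 0 := by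
  split_ifs with h
  · subst h
    have : ∀ ε : ι → Bool, ((if ε i then (1 : 𝕜) else -1) * (if ε i then (1 : 𝕜) else -1)) = 1 := by
      intro ε
      split_ifs <;> simp
    rw [Finset.sum_congr rfl (fun ε _ => this ε)]
    simp
  · apply Finset.sum_involution (fun ε _ => Function.update ε i (!ε i))
    · intro ε _
      rw [Function.update_self, Function.update_of_ne (Ne.symm h)]
      cases ε i <;> cases ε j <;> simp
    · intro ε _ _ he
      have := congrFun he i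
      rw [Function.update_self] at this
      cases hh : ε i <;> simp [hh] at this
    · intro ε _
      simp
    · intro ε _
      exact Finset.mem_univ _

theorem avg_sq_two {ι 𝕜 : Type*} [Fintype ι] [DecidableEq ι] [RCLike 𝕜] (v : ι → 𝕜) :
    ∑ ε : ι → Bool, ‖∑ i, sv (ε i) (v i)‖ ^ 2 = (2 : ℝ) ^ Fintype.card ι * ∑ i, ‖v i‖ ^ 2 := by
  have key : ((∑ ε : ι → Bool, ‖∑ i, sv (ε i) (v i)‖ ^ 2 : ℝ) : 𝕜) =
      (((2 : ℝ) ^ Fintype.card ι * ∑ i, ‖v i‖ ^ 2 : ℝ) : 𝕜) := by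
    push_cast
    have h1 : ∀ ε : ι → Bool, ((‖∑ i, sv (ε i) (v i)‖ : ℝ) : 𝕜) ^ 2 =
        ∑ i, ∑ j, ((if ε i then (1 : 𝕜) else -1) * (if ε j then (1 : 𝕜) else -1)) *
          (v i * (starRingEnd 𝕜) (v j)) := by
      intro ε
      rw [← RCLike.mul_conj, map_sum, Finset.sum_mul_sum]
      apply Finset.sum_congr rfl
      intro i _
      apply Finset.sum_congr rfl
      intro j _
      rw [avg_sq_sg, avg_sq_sg, map_mul]
      have : (starRingEnd 𝕜) (if ε j then (1 : 𝕜) else -1) = if ε j then (1 : 𝕜) else -1 := by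
        split_ifs <;> simp
      rw [this]
      ring
    rw [Finset.sum_congr rfl (fun ε _ => h1 ε), Finset.sum_comm]
    rw [Finset.mul_sum]
    apply Finset.sum_congr rfl
    intro i _
    rw [Finset.sum_comm]
    have h2 : ∀ j : ι, ∑ ε : ι → Bool, ((if ε i then (1 : 𝕜) else -1) * (if ε j then (1 : 𝕜) else -1)) *
          (v i * (starRingEnd 𝕜) (v j)) = if i = j then (2 : 𝕜) ^ Fintype.card ι * (v i * (starRingEnd 𝕜) (v j)) else 0 := by
      intro j
      rw [← Finset.sum_mul, avg_sq_orth]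
      split_ifs <;> simp
    rw [Finset.sum_congr rfl (fun j _ => h2 j), Finset.sum_ite_eq, if_pos (Finset.mem_univ i), RCLike.mul_conj]
  exact_mod_cast key

theorem avg_sq {ι 𝕜 : Type*} [Fintype ι] [DecidableEq ι] [RCLike 𝕜] (v : ι → 𝕜) :
    ∑ ε : ι → Bool, ‖∑ i, sv (ε i) (v i)‖ ≤
      (2 : ℝ) ^ Fintype.card ι * √(∑ i, ‖v i‖ ^ 2) := by
  have h2 := avg_sq_two (𝕜 := 𝕜) v
  have hcs := sq_sum_le_card_mul_sum_sq (s := (Finset.univ : Finset (ι → Bool)))
    (f := fun ε => ‖∑ i, sv (ε i) (v i)‖)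
  rw [h2] at hcs
  have hcard : ((Finset.univ : Finset (ι → Bool)).card : ℝ) = 2 ^ Fintype.card ι := by
    simp
  rw [hcard] at hcs
  have hS : 0 ≤ ∑ i, ‖v i‖ ^ 2 := Finset.sum_nonneg (fun i _ => by positivity)
  have h3 : (2 : ℝ) ^ Fintype.card ι * √(∑ i, ‖v i‖ ^ 2) =
      √((2 : ℝ) ^ Fintype.card ι * ((2 : ℝ) ^ Fintype.card ι * ∑ i, ‖v i‖ ^ 2)) := by
    rw [← mul_assoc, Real.sqrt_mul (by positivity), Real.sqrt_mul_self (by positivity)]
  rw [h3]
  exact Real.le_sqrt_of_sq_le hcs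

end Pool.Agent.Helper318.L1D
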