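import Pool.Agent.Helper318.L1D.Defs

set_option autoImplicit false

open MeasureTheory Set Filter Topology

namespace Pool.Agent.Helper318.L1D

theorem chi_ae {𝕜 : Type*} [RCLike 𝕜] {Ω : Type*} [MeasurableSpace Ω] (μ : Measure Ω)
    {B : Set Ω} (hB : MeasurableSet B) (hμ : μ B < ⊤) :
    (chi 𝕜 μ B : Ω → 𝕜) =ᵐ[μ] B.indicator (fun _ => (1 : 𝕜)) := by
  unfold chi
  rw [dif_pos ⟨hB, hμ.ne⟩]
  exact indicatorConstLp_coeFn

end Pool.Agent.Helper318.L1D
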