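import Pool.Agent.Helper318.L1D.Defs

set_option autoImplicit false

open MeasureTheory Set Filter Topology

namespace Pool.Agent.Helper318.L1D

theorem chi_norm {𝕜 : Type*} [RCLike 𝕜] {Ω : Type*} [MeasurableSpace Ω] (μ : Measure Ω)
    {B : Set Ω} (hB : MeasurableSet B) (hμ : μ B < ⊤) : ‖chi 𝕜 μ B‖ = μ.real B := by
  unfold chi
  rw [dif_pos ⟨hB, hμ.ne⟩, norm_indicatorConstLp one_ne_zero ENNReal.one_ne_top]
  simp

end Pool.Agent.Helper318.L1D
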