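import Pool.Agent.Helper318.L1D.Defs

set_option autoImplicit false

open MeasureTheory Set Filter Topology

namespace Pool.Agent.Helper318.L1D



theorem tree_mono {𝕜 : Type*} [RCLike 𝕜] {Ω : Type*} [MeasurableSpace Ω] {μ : Measure Ω}
    {X : Type*} [NormedAddCommGroup X] [NormedSpace 𝕜 X]
    {T : Lp 𝕜 1 μ →L[𝕜] StrongDual 𝕜 X} {c : ℝ}
    {A : (n : ℕ) → (Fin n → Bool × Bool) → Set Ω} (hA : IsTree T c A) (s : ℕ → Bool × Bool)
    {n N : ℕ} (h : n ≤ N) : A N (fun i => s i) ⊆ A n (fun i => s i) := by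
  induction N, h using Nat.le_induction with
  | base => exact Subset.rfl
  | succ N hN ih =>
    have h1 := hA.sub N (fun i : Fin (N + 1) => s i)
    exact h1.trans ih

end Pool.Agent.Helper318.L1D
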