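import Pool.Agent.Helper318.L1D.Defs
import Pool.Agent.Helper318.L1D.P_chi_norm
import Pool.Agent.Helper318.L1D.P_tree_mono

set_option autoImplicit false

open MeasureTheory Set Filter Topology

namespace Pool.Agent.Helper318.L1D



theorem rlw_sep (J : Finset (ℕ → Bool)) :
    ∃ n₀ : ℕ, ∀ t ∈ J, ∀ t' ∈ J, t ≠ t' → ∃ i ≤ n₀, t i ≠ t' i := by
  classical
  have hch : ∀ p : (ℕ → Bool) × (ℕ → Bool), ∃ i : ℕ, p.1 ≠ p.2 → p.1 i ≠ p.2 i := by
    intro p
    by_cases h : p.1 = p.2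
    · exact ⟨0, fun h' => absurd h h'⟩
    · obtain ⟨i, hi⟩ := Function.ne_iff.mp h
      exact ⟨i, fun _ => hi⟩
  choose g hg using hch
  refine ⟨(J ×ˢ J).sup g, fun t ht t' ht' hne => ⟨g (t, t'), ?_, hg (t, t') hne⟩⟩
  exact Finset.le_sup (f := g) (Finset.mem_product.mpr ⟨ht, ht'⟩)

theorem rlw_sv_map {V W : Type*} [AddGroup V] [AddGroup W] (f : V →+ W) (b : Bool) (v : V) :
    f (sv b v) = sv b (f v) := by
  cases b <;> simp [sv]

theorem rlw_sv_sv (e b : Bool) (r : ℝ) : sv (decide (e = b)) r = sv e (sv b r) := by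
  cases e <;> cases b <;> simp [sv]

theorem rlw_sv_mul (b : Bool) (a r : ℝ) : sv b (a * r) = a * sv b r := by
  cases b <;> simp [sv]

theorem rlw_sv_sum {ι : Type*} (S : Finset ι) (b : Bool) (r : ι → ℝ) :
    sv b (∑ i ∈ S, r i) = ∑ i ∈ S, sv b (r i) := by
  cases b <;> simp [sv]

theorem rad_lower {𝕜 : Type*} [RCLike 𝕜] {Ω : Type*} [MeasurableSpace Ω] {μ : Measure Ω}
    {X : Type*} [NormedAddCommGroup X] [NormedSpace 𝕜 X]
    {T : Lp 𝕜 1 μ →L[𝕜] StrongDual 𝕜 X} {c : ℝ} (hc : 0 < c)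
    {A : (n : ℕ) → (Fin n → Bool × Bool) → Set Ω} (hA : IsTree T c A)
    (J : Finset (ℕ → Bool)) :
    ∃ n₀ : ℕ, ∀ n ≥ n₀, ∀ ε : (ℕ → Bool) → Bool, ∃ x : X, ‖x‖ ≤ 1 ∧
      ∀ t ∈ J, ∀ N > n, c ≤ sv (ε t) (RCLike.re (T (rad A t n N) x)) := by
  classical
  obtain ⟨n₀, hn₀⟩ := rlw_sep J
  refine ⟨n₀, fun n hn ε => ?_⟩
  set θ : (Fin (n + 1) → Bool × Bool) → Bool := fun s =>
    if h : ∃ t ∈ J, ∀ i : Fin (n + 1), (s i).1 = t i then decide (ε h.choose = (s (Fin.last n)).2) else true with hθ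
  obtain ⟨x, hx1, hx⟩ := hA.test n θ
  refine ⟨x, hx1, fun t ht N hN => ?_⟩
  have hterm : ∀ η : Fin N → Bool,
      c ≤ sv (ε t) (sv (η ⟨n, hN⟩) (RCLike.re (T (uni 𝕜 μ (A N (idx t η))) x))) := by
    intro η
    set B := A N (idx t η) with hB
    have hBpos : 0 < μ.real B := by
      rw [measureReal_def]
      exact ENNReal.toReal_pos (hA.pos _ _).ne' (hA.fin _ _).ne
    set s : ℕ → Bool × Bool := fun i => (t i, if h : i < N then η ⟨i, h⟩ else false) with hs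
    have hsN : (fun i : Fin N => s i) = idx t η := by
      funext i
      simp [hs, idx]
    have hsub : B ⊆ A (n + 1) (fun i => s i) := by
      have := tree_mono hA s (n := n + 1) (N := N) (by omega)
      rwa [hsN] at this
    have hθs : θ (fun i => s i) = decide (ε t = η ⟨n, hN⟩) := by
      have hex : ∃ t' ∈ J, ∀ i : Fin (n + 1), (s i).1 = t' i := ⟨t, ht, fun i => rfl⟩
      have hch : hex.choose = t := by
        by_contra hne
        obtain ⟨i, hi, hne'⟩ := hn₀ _ hex.choose_spec.1 t ht hne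
        apply hne'
        have := hex.choose_spec.2 ⟨i, by omega⟩
        exact this.symm
      simp only [hθ]
      rw [dif_pos hex, hch]
      simp [hs, hN]
    have h1 := hx (fun i => s i) B hsub (hA.meas _ _)
    rw [hθs, rlw_sv_sv] at h1
    have h2 : RCLike.re (T (uni 𝕜 μ B) x) = (μ.real B)⁻¹ * RCLike.re (T (chi 𝕜 μ B) x) := by
      rw [uni, map_smul, ContinuousLinearMap.smul_apply, smul_eq_mul, RCLike.re_ofReal_mul]
    rw [h2, rlw_sv_mul, rlw_sv_mul]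
    rw [inv_mul_eq_div, le_div_iff₀ hBpos]
    exact h1
  have hrad : RCLike.re (T (rad A t n N) x) = ((2:ℝ) ^ N)⁻¹ *
      ∑ η : Fin N → Bool, sv (η ⟨n, hN⟩) (RCLike.re (T (uni 𝕜 μ (A N (idx t η))) x)) := by
    rw [rad, map_smul, ContinuousLinearMap.smul_apply, smul_eq_mul]
    have e1 : ((2 : 𝕜) ^ N)⁻¹ = ((((2:ℝ) ^ N)⁻¹ : ℝ) : 𝕜) := by push_cast; rfl
    rw [e1, RCLike.re_ofReal_mul]
    congr 1
    simp only [hN, dif_pos]
    rw [map_sum, ContinuousLinearMap.sum_apply, map_sum]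
    apply Finset.sum_congr rfl
    intro η _
    set b := η ⟨n, hN⟩
    cases b <;> simp [sv]
  rw [hrad, rlw_sv_mul, rlw_sv_sum, inv_mul_eq_div, le_div_iff₀ (by positivity)]
  calc c * 2 ^ N = ∑ η : Fin N → Bool, c := by simp [mul_comm]
    _ ≤ _ := Finset.sum_le_sum (fun η _ => hterm η)

end Pool.Agent.Helper318.L1D
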