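import Pool.Agent.Helper318.L1D.Defs
import Pool.Agent.Helper318.L1D.P_avg_sq
import Pool.Agent.Helper318.L1D.P_chi_norm

set_option autoImplicit false

open MeasureTheory Set Filter Topology

namespace Pool.Agent.Helper318.L1D



theorem sv_eq_smul (𝕜 : Type*) [RCLike 𝕜] {V : Type*} [NormedAddCommGroup V] [NormedSpace 𝕜 V]
    (b : Bool) (v : V) : sv b v = (sv b (1 : 𝕜)) • v := by
  cases b <;> simp [sv]

theorem sv_sv (𝕜 : Type*) [RCLike 𝕜] (b c : Bool) :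
    sv b (1 : 𝕜) * sv c (1 : 𝕜) = sv c (sv b (1 : 𝕜)) := by
  cases b <;> cases c <;> simp [sv]

theorem norm_sv_one (𝕜 : Type*) [RCLike 𝕜] (b : Bool) : ‖sv b (1 : 𝕜)‖ = 1 := by
  cases b <;> simp [sv]

theorem norm_uni {𝕜 : Type*} [RCLike 𝕜] {Ω : Type*} [MeasurableSpace Ω] (μ : Measure Ω)
    {B : Set Ω} (hB : MeasurableSet B) (hμ : μ B < ⊤) (hpos : 0 < μ B) : ‖uni 𝕜 μ B‖ = 1 := by
  have h1 : 0 < μ.real B := by
    rw [measureReal_def]
    exact ENNReal.toReal_pos hpos.ne' hμ.ne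
  unfold uni
  rw [norm_smul, chi_norm μ hB hμ, RCLike.norm_ofReal, abs_of_pos (inv_pos.2 h1),
    inv_mul_cancel₀ h1.ne']

theorem sum_S_eq {𝕜 : Type*} [RCLike 𝕜] (N : ℕ) (S : Finset ℕ) (ε : ℕ → Bool)
    (η : Fin N → Bool) :
    ∑ n ∈ S, (if h : n < N then sv (ε n) (1 : 𝕜) * sv (η ⟨n, h⟩) (1 : 𝕜) else 0) =
      ∑ i : Fin N, sv (η i) (if (i : ℕ) ∈ S then sv (ε i) (1 : 𝕜) else 0) := by
  classical
  have h0 : ∀ b : Bool, sv b (0 : 𝕜) = 0 := by intro b; cases b <;> simp [sv]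
  let G : ℕ → 𝕜 := fun n => if h : n < N then
    (if n ∈ S then sv (η ⟨n, h⟩) (sv (ε n) (1 : 𝕜)) else 0) else 0
  have h1 : ∑ n ∈ S, (if h : n < N then sv (ε n) (1 : 𝕜) * sv (η ⟨n, h⟩) (1 : 𝕜) else 0) =
      ∑ n ∈ S, G n := by
    refine Finset.sum_congr rfl fun n hn => ?_
    change _ = if h : n < N then
      (if n ∈ S then sv (η ⟨n, h⟩) (sv (ε n) (1 : 𝕜)) else 0) else 0
    split_ifs with h
    · exact sv_sv 𝕜 _ _
    · rfl
  have h2 : ∑ i : Fin N, sv (η i) (if (i : ℕ) ∈ S then sv (ε i) (1 : 𝕜) else 0) =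
      ∑ i : Fin N, G i := by
    refine Finset.sum_congr rfl fun i _ => ?_
    change _ = if h : (i : ℕ) < N then
      (if (i : ℕ) ∈ S then sv (η ⟨i, h⟩) (sv (ε i) (1 : 𝕜)) else 0) else 0
    rw [dif_pos i.2]
    split_ifs with h
    · rfl
    · exact h0 _
  rw [h1, h2, ← Finset.sum_range]
  have h3 : ∑ n ∈ S, G n = ∑ n ∈ S ∪ Finset.range N, G n := by
    refine Finset.sum_subset Finset.subset_union_left fun n _ hn => ?_
    change (if h : n < N then
      (if n ∈ S then sv (η ⟨n, h⟩) (sv (ε n) (1 : 𝕜)) else 0) else 0) = 0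
    split_ifs
    · rfl
    · rfl
  have h4 : ∑ n ∈ Finset.range N, G n = ∑ n ∈ S ∪ Finset.range N, G n := by
    refine Finset.sum_subset Finset.subset_union_right fun n _ hn => ?_
    change (if h : n < N then
      (if n ∈ S then sv (η ⟨n, h⟩) (sv (ε n) (1 : 𝕜)) else 0) else 0) = 0
    rw [dif_neg]
    intro h
    exact hn (Finset.mem_range.2 h)
  rw [h3, h4]

theorem rad_upper {𝕜 : Type*} [RCLike 𝕜] {Ω : Type*} [MeasurableSpace Ω] {μ : Measure Ω}
    (A : (n : ℕ) → (Fin n → Bool × Bool) → Set Ω) (hm : ∀ n s, MeasurableSet (A n s))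
    (hpos : ∀ n s, 0 < μ (A n s)) (hfin : ∀ n s, μ (A n s) < ⊤)
    (hd : ∀ n, Pairwise fun s s' => Disjoint (A n s) (A n s')) (t : ℕ → Bool) (N : ℕ)
    (S : Finset ℕ) (ε : ℕ → Bool) :
    ‖∑ n ∈ S, sv (ε n) (rad (𝕜 := 𝕜) (μ := μ) A t n N)‖ ≤ √(S.card) := by
  classical
  have e1 : ∑ n ∈ S, sv (ε n) (rad (𝕜 := 𝕜) (μ := μ) A t n N) =
      ((2 : 𝕜) ^ N)⁻¹ • ∑ η : Fin N → Bool,
        (∑ i : Fin N, sv (η i) (if (i : ℕ) ∈ S then sv (ε i) (1 : 𝕜) else 0)) •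
          uni 𝕜 μ (A N (idx t η)) := by
    have h1 : ∀ n ∈ S, sv (ε n) (rad (𝕜 := 𝕜) (μ := μ) A t n N) =
        ((2 : 𝕜) ^ N)⁻¹ • ∑ η : Fin N → Bool,
          (if h : n < N then sv (ε n) (1 : 𝕜) * sv (η ⟨n, h⟩) (1 : 𝕜) else 0) •
            uni 𝕜 μ (A N (idx t η)) := by
      intro n _
      rw [sv_eq_smul 𝕜, rad, smul_comm, Finset.smul_sum]
      congr 1
      refine Finset.sum_congr rfl fun η _ => ?_
      split_ifs with h
      · rw [sv_eq_smul 𝕜 (η ⟨n, h⟩), smul_smul]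
      · rw [smul_zero, zero_smul]
    rw [Finset.sum_congr rfl h1, ← Finset.smul_sum, Finset.sum_comm]
    congr 1
    refine Finset.sum_congr rfl fun η _ => ?_
    rw [← Finset.sum_smul, sum_S_eq]
  rw [e1, norm_smul, norm_inv, norm_pow, RCLike.norm_ofNat]
  have e2 : ‖∑ η : Fin N → Bool,
        (∑ i : Fin N, sv (η i) (if (i : ℕ) ∈ S then sv (ε i) (1 : 𝕜) else 0)) •
          uni 𝕜 μ (A N (idx t η))‖ ≤ 2 ^ N * √(S.card) := by
    calc _ ≤ ∑ η : Fin N → Bool,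
        ‖(∑ i : Fin N, sv (η i) (if (i : ℕ) ∈ S then sv (ε i) (1 : 𝕜) else 0)) •
          uni 𝕜 μ (A N (idx t η))‖ := norm_sum_le _ _
      _ = ∑ η : Fin N → Bool,
        ‖∑ i : Fin N, sv (η i) (if (i : ℕ) ∈ S then sv (ε i) (1 : 𝕜) else 0)‖ := by
          refine Finset.sum_congr rfl fun η _ => ?_
          rw [norm_smul, norm_uni μ (hm _ _) (hfin _ _) (hpos _ _), mul_one]
      _ ≤ (2 : ℝ) ^ Fintype.card (Fin N) *
          √(∑ i : Fin N, ‖(if (i : ℕ) ∈ S then sv (ε i) (1 : 𝕜) else 0)‖ ^ 2) := avg_sq _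
      _ ≤ 2 ^ N * √(S.card) := by
          rw [Fintype.card_fin]
          refine mul_le_mul_of_nonneg_left (Real.sqrt_le_sqrt ?_) (by positivity)
          have e3 : ∀ i : Fin N, ‖(if (i : ℕ) ∈ S then sv (ε i) (1 : 𝕜) else 0)‖ ^ 2 =
              if (i : ℕ) ∈ S then (1 : ℝ) else 0 := by
            intro i
            split_ifs
            · rw [norm_sv_one, one_pow]
            · rw [norm_zero]
              norm_num
          rw [Finset.sum_congr rfl fun i _ => e3 i, ← Finset.sum_filter, Finset.sum_const,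
            nsmul_eq_mul, mul_one]
          have e4 : (Finset.univ.filter fun i : Fin N => (i : ℕ) ∈ S).card ≤ S.card := by
            refine Finset.card_le_card_of_injOn (fun i : Fin N => (i : ℕ)) ?_ ?_
            · intro i hi
              exact (Finset.mem_filter.1 hi).2
            · intro i _ i' _ h
              exact Fin.ext h
          exact_mod_cast e4
  rw [inv_mul_le_iff₀ (by positivity)]
  exact e2

end Pool.Agent.Helper318.L1D
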