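import Pool.Agent.Helper318.L1D.Defs
import Pool.Agent.Helper318.L1D.P_chi_norm
import Pool.Agent.Helper318.L1D.P_chi_ae

set_option autoImplicit false

open MeasureTheory Set Filter Topology

namespace Pool.Agent.Helper318.L1D



theorem hsc_union {𝕜 : Type*} [RCLike 𝕜] {Ω : Type*} [MeasurableSpace Ω] (μ : Measure Ω)
    {A B : Set Ω} (hA : MeasurableSet A) (hB : MeasurableSet B) (hμA : μ A < ⊤) (hμB : μ B < ⊤)
    (hd : Disjoint A B) : chi 𝕜 μ (A ∪ B) = chi 𝕜 μ A + chi 𝕜 μ B := by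
  have hU : μ (A ∪ B) < ⊤ := measure_union_lt_top hμA hμB
  apply Lp.ext
  filter_upwards [chi_ae (𝕜 := 𝕜) μ (hA.union hB) hU, chi_ae (𝕜 := 𝕜) μ hA hμA,
    chi_ae (𝕜 := 𝕜) μ hB hμB, Lp.coeFn_add (chi 𝕜 μ A) (chi 𝕜 μ B)] with x h1 h2 h3 h4
  rw [h1, h4, Pi.add_apply, h2, h3, Set.indicator_union_of_disjoint hd]

theorem hsc_real {Ω : Type*} [MeasurableSpace Ω] (μ : Measure Ω)
    (B : ℕ → Set Ω) (hB : ∀ n, MeasurableSet (B n)) (hd : Pairwise fun i j => Disjoint (B i) (B j))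
    (hμ : μ (⋃ n, B n) < ⊤) : HasSum (fun n => μ.real (B n)) (μ.real (⋃ n, B n)) := by
  have h1 : μ (⋃ n, B n) = ∑' n, μ (B n) := measure_iUnion hd hB
  have h2 : ∑' n, μ (B n) ≠ ⊤ := by rw [← h1]; exact hμ.ne
  have h3 := ENNReal.hasSum_toReal h2
  have h4 : μ.real (⋃ n, B n) = ∑' n, (μ (B n)).toReal := by
    rw [Measure.real, h1]
    exact ENNReal.tsum_toReal_eq fun n => ENNReal.ne_top_of_tsum_ne_top h2 n
  rw [h4]
  exact h3

theorem hasSum_chi {𝕜 : Type*} [RCLike 𝕜] {Ω : Type*} [MeasurableSpace Ω] (μ : Measure Ω)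
    (B : ℕ → Set Ω) (hB : ∀ n, MeasurableSet (B n)) (hd : Pairwise fun i j => Disjoint (B i) (B j))
    (hμ : μ (⋃ n, B n) < ⊤) : HasSum (fun n => chi 𝕜 μ (B n)) (chi 𝕜 μ (⋃ n, B n)) := by
  have hBn : ∀ n, μ (B n) < ⊤ := fun n => lt_of_le_of_lt (measure_mono (subset_iUnion B n)) hμ
  have hreal := hsc_real μ B hB hd hμ
  have hsum : Summable (fun n => chi 𝕜 μ (B n)) := by
    apply Summable.of_norm
    have h1 : (fun n => ‖chi 𝕜 μ (B n)‖) = fun n => μ.real (B n) :=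
      funext fun n => chi_norm μ (hB n) (hBn n)
    rw [h1]
    exact hreal.summable
  obtain ⟨R, hR⟩ : ∃ R : ℕ → Set Ω, R = fun n => ⋃ k, B (k + n) := ⟨_, rfl⟩
  have hRm : ∀ n, MeasurableSet (R n) := fun n => by
    rw [hR]
    exact MeasurableSet.iUnion fun k => hB _
  have hRfin : ∀ n, μ (R n) < ⊤ := fun n => by
    refine lt_of_le_of_lt (measure_mono ?_) hμ
    rw [hR]
    exact iUnion_subset fun k => subset_iUnion B (k + n)
  have hR0 : R 0 = ⋃ n, B n := by
    rw [hR]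
    rfl
  have hRs : ∀ n, R n = B n ∪ R (n + 1) := by
    intro n
    rw [hR]
    ext x
    simp only [mem_iUnion, mem_union]
    constructor
    · rintro ⟨k, hk⟩
      rcases k with _ | k
      · left
        simpa using hk
      · right
        exact ⟨k, by rwa [show k + (n + 1) = k + 1 + n by ring]⟩
    · rintro (h | ⟨k, hk⟩)
      · exact ⟨0, by simpa using h⟩
      · exact ⟨k + 1, by rwa [show k + 1 + n = k + (n + 1) by ring]⟩
  have hRd : ∀ n, Disjoint (B n) (R (n + 1)) := by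
    intro n
    rw [hR]
    simp only [disjoint_iUnion_right]
    intro k
    exact hd (by omega)
  have hpart : ∀ n, chi 𝕜 μ (⋃ n, B n) = ∑ i ∈ Finset.range n, chi 𝕜 μ (B i) + chi 𝕜 μ (R n) := by
    intro n
    induction n with
    | zero => rw [Finset.sum_range_zero, zero_add, hR0]
    | succ n ih =>
      rw [ih, Finset.sum_range_succ, add_assoc, hRs n,
        hsc_union μ (hB n) (hRm (n + 1)) (hBn n) (hRfin (n + 1)) (hRd n)]
  rw [hsum.hasSum_iff_tendsto_nat]
  rw [tendsto_iff_norm_sub_tendsto_zero]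
  have h5 : (fun n => ‖∑ i ∈ Finset.range n, chi 𝕜 μ (B i) - chi 𝕜 μ (⋃ n, B n)‖) =
      fun n => ∑' k, μ.real (B (k + n)) := by
    funext n
    rw [hpart n, sub_add_cancel_left, norm_neg, chi_norm μ (hRm n) (hRfin n)]
    have h6 := hsc_real μ (fun k => B (k + n)) (fun k => hB _)
      (fun i j hij => hd (by omega)) (by
        have := hRfin n
        rw [hR] at this
        exact this)
    rw [h6.tsum_eq, hR]
  rw [h5]
  exact tendsto_sum_nat_add fun n => μ.real (B n)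

end Pool.Agent.Helper318.L1D
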