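import Pool.Agent.Helper318.L1D.Defs
import Pool.Agent.Helper318.L1D.P_chi_norm
import Pool.Agent.Helper318.L1D.P_chi_ae
import Pool.Agent.Helper318.L1D.P_hasSum_chi

set_option autoImplicit false

open MeasureTheory Set Filter Topology

namespace Pool.Agent.Helper318.L1D



theorem hahn {𝕜 : Type*} [RCLike 𝕜] {Ω : Type*} [MeasurableSpace Ω] (μ : Measure Ω)
    (φ : Lp 𝕜 1 μ →+ ℝ) (hφ : Continuous φ) (c : ℝ) {A : Set Ω} (hA : MeasurableSet A)
    (hμ : μ A < ⊤) (h : c * μ.real A < φ (chi 𝕜 μ A)) :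
    ∃ A' ⊆ A, MeasurableSet A' ∧ 0 < μ A' ∧
      ∀ B ⊆ A', MeasurableSet B → c * μ.real B ≤ φ (chi 𝕜 μ B) := by
  classical
  have hchi0 : ∀ B : Set Ω, MeasurableSet B → μ B = 0 → chi 𝕜 μ B = 0 := by
    intro B hB h0
    have h1 := chi_norm (𝕜 := 𝕜) μ hB (by rw [h0]; exact ENNReal.zero_lt_top)
    have h2 : μ.real B = 0 := by simp [Measure.real, h0]
    rw [h2] at h1
    exact norm_eq_zero.1 h1
  let s : VectorMeasure Ω ℝ :=
    { measureOf' := fun B => if MeasurableSet B then c * μ.real (B ∩ A) - φ (chi 𝕜 μ (B ∩ A)) else 0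
      empty' := by
        simp only [MeasurableSet.empty, if_true, empty_inter]
        rw [hchi0 ∅ MeasurableSet.empty measure_empty]
        simp
      not_measurable' := by
        intro i hi
        simp [hi]
      m_iUnion' := by
        intro f hf hdf
        have hU : MeasurableSet (⋃ i, f i) := MeasurableSet.iUnion hf
        simp only [hf, hU, if_true]
        have hd' : Pairwise fun i j => Disjoint (f i ∩ A) (f j ∩ A) := fun i j hij =>
          (hdf hij).mono inter_subset_left inter_subset_left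
        have hm' : ∀ n, MeasurableSet (f n ∩ A) := fun n => (hf n).inter hA
        have hUA : (⋃ i, f i) ∩ A = ⋃ i, (f i ∩ A) := iUnion_inter _ _
        have hfin : μ (⋃ i, (f i ∩ A)) < ⊤ :=
          lt_of_le_of_lt (measure_mono (by rw [← hUA]; exact inter_subset_right)) hμ
        have h1 : HasSum (fun i => μ.real (f i ∩ A)) (μ.real (⋃ i, (f i ∩ A))) := by
          have e1 : μ (⋃ i, (f i ∩ A)) = ∑' i, μ (f i ∩ A) := measure_iUnion hd' hm'
          have e2 := ENNReal.hasSum_toReal (f := fun i => μ (f i ∩ A)) (by rw [← e1]; exact hfin.ne)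
          have e3 : μ.real (⋃ i, (f i ∩ A)) = ∑' i, (μ (f i ∩ A)).toReal := by
            show (μ (⋃ i, (f i ∩ A))).toReal = _
            rw [e1]
            apply ENNReal.tsum_toReal_eq
            intro i
            exact (lt_of_le_of_lt (measure_mono inter_subset_right) hμ).ne
          rw [e3]
          exact e2
        have h2 := (hasSum_chi (𝕜 := 𝕜) μ (fun n => f n ∩ A) hm' hd' hfin).map φ hφ
        rw [hUA]
        exact (h1.mul_left c).sub h2 }
  have hs : ∀ B, MeasurableSet B → B ⊆ A → s B = c * μ.real B - φ (chi 𝕜 μ B) := by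
    intro B hB hBA
    show (if MeasurableSet B then c * μ.real (B ∩ A) - φ (chi 𝕜 μ (B ∩ A)) else 0) = _
    rw [if_pos hB, inter_eq_left.2 hBA]
  have hsA : s A < 0 := by
    rw [hs A hA subset_rfl]; linarith
  obtain ⟨j, hj, hjA, hle, hneg⟩ := SignedMeasure.exists_subset_restrict_nonpos hsA
  refine ⟨j, hjA, hj, ?_, ?_⟩
  · rw [pos_iff_ne_zero]
    intro h0
    rw [hs j hj hjA, hchi0 j hj h0] at hneg
    have h2 : μ.real j = 0 := by simp [Measure.real, h0]
    rw [h2] at hneg
    simp at hneg
  · intro B hB hBm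
    have h1 := (VectorMeasure.restrict_le_restrict_iff s 0 hj).1 hle hBm hB
    rw [hs B hBm (hB.trans hjA)] at h1
    simp only [FunLike.coe_zero, Pi.zero_apply] at h1
    linarith

end Pool.Agent.Helper318.L1D
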