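import Pool.Agent.Helper318.L1D.Defs

set_option autoImplicit false

open MeasureTheory Set Filter Topology

namespace Pool.Agent.Helper318.L1D



theorem minimax {𝕜 : Type*} [RCLike 𝕜] {X : Type*} [NormedAddCommGroup X] [NormedSpace 𝕜 X]
    {ι : Type*} [Fintype ι] (z : ι → StrongDual 𝕜 X) (c c' : ℝ) (hc' : 0 ≤ c') (hcc : c' < c)
    (hz : ∀ a : ι → ℝ, (∀ i, 0 ≤ a i) → c * ∑ i, a i ≤ ‖∑ i, ((a i : ℝ) : 𝕜) • z i‖) :
    ∃ x : X, ‖x‖ ≤ 1 ∧ ∀ i, c' < RCLike.re (z i x) := by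
  classical
  by_contra hcon
  obtain ⟨W, hW⟩ : ∃ W : Set (ι → ℝ), W = {w | ∃ x : X, ‖x‖ ≤ 1 ∧ ∀ i, w i = RCLike.re (z i x)} :=
    ⟨_, rfl⟩
  obtain ⟨O, hO⟩ : ∃ O : Set (ι → ℝ), O = Set.pi Set.univ (fun _ => Ioi c') := ⟨_, rfl⟩
  have hOmem : ∀ w : ι → ℝ, w ∈ O ↔ ∀ i, c' < w i := by
    intro w; rw [hO]; simp
  have hOo : IsOpen O := by rw [hO]; exact isOpen_set_pi Set.finite_univ fun i _ => isOpen_Ioi
  have hOc : Convex ℝ O := by rw [hO]; exact convex_pi fun i _ => convex_Ioi c'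
  have hWc : Convex ℝ W := by
    rw [hW]
    rintro w ⟨x, hx, hw⟩ w' ⟨y, hy, hw'⟩ a b ha hb hab
    refine ⟨((a : ℝ) : 𝕜) • x + ((b : ℝ) : 𝕜) • y, ?_, fun i => ?_⟩
    · calc ‖((a : ℝ) : 𝕜) • x + ((b : ℝ) : 𝕜) • y‖ ≤ ‖((a : ℝ) : 𝕜) • x‖ + ‖((b : ℝ) : 𝕜) • y‖ :=
            norm_add_le _ _
        _ = a * ‖x‖ + b * ‖y‖ := by
            rw [norm_smul, norm_smul, RCLike.norm_ofReal, RCLike.norm_ofReal, abs_of_nonneg ha,
              abs_of_nonneg hb]
        _ ≤ a * 1 + b * 1 := add_le_add (mul_le_mul_of_nonneg_left hx ha)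
            (mul_le_mul_of_nonneg_left hy hb)
        _ = 1 := by linarith
    · simp only [Pi.add_apply, Pi.smul_apply, smul_eq_mul, map_add, map_smul, RCLike.re_ofReal_mul,
        hw i, hw' i]
  have hdisj : Disjoint O W := by
    rw [Set.disjoint_left]
    intro w hw hw2
    rw [hW] at hw2
    obtain ⟨x, hx, hxw⟩ := hw2
    exact hcon ⟨x, hx, fun i => by rw [← hxw i]; exact (hOmem w).1 hw i⟩
  obtain ⟨f, u, hfO, hfW⟩ := geometric_hahn_banach_open hOc hOo hWc hdisj
  obtain ⟨a, ha⟩ : ∃ a : ι → ℝ, a = fun i => - f (Pi.single i 1) := ⟨_, rfl⟩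
  have hf : ∀ w : ι → ℝ, f w = - ∑ i, a i * w i := by
    intro w
    have h1 : w = ∑ i, w i • (Pi.single i (1 : ℝ) : ι → ℝ) := by
      funext j
      simp [Finset.sum_apply, Pi.single_apply]
    calc f w = f (∑ i, w i • (Pi.single i (1 : ℝ) : ι → ℝ)) := by rw [← h1]
      _ = ∑ i, w i * f (Pi.single i 1) := by simp only [map_sum, map_smul, smul_eq_mul]
      _ = - ∑ i, a i * w i := by
          rw [← Finset.sum_neg_distrib]
          refine Finset.sum_congr rfl fun i _ => ?_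
          rw [ha]; ring
  have hu : u ≤ 0 := by
    have h0 : (0 : ι → ℝ) ∈ W := by
      rw [hW]
      exact ⟨0, by simp, fun i => by simp⟩
    have := hfW 0 h0
    rwa [map_zero] at this
  obtain ⟨A, hA⟩ : ∃ A, A = ∑ i, a i := ⟨_, rfl⟩
  have hconst : ∀ t : ℝ, c' < t → -u < A * t := by
    intro t ht
    have h1 := hfO (fun _ => t) ((hOmem _).2 fun _ => ht)
    rw [hf, ← Finset.sum_mul, ← hA] at h1
    linarith
  have ha0 : ∀ i, 0 ≤ a i := by
    intro i
    by_contra hneg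
    push Not at hneg
    obtain ⟨M, hM⟩ : ∃ M : ℝ, M = max 0 (A * (c' + 1)) / (- a i) := ⟨_, rfl⟩
    have hM0 : 0 ≤ M := by rw [hM]; exact div_nonneg (le_max_left _ _) (by linarith)
    have hmem : (fun j => (c' + 1) + M * (Pi.single i (1:ℝ) : ι → ℝ) j) ∈ O := by
      rw [hOmem]
      intro j
      have : 0 ≤ (Pi.single i (1:ℝ) : ι → ℝ) j := by
        rw [Pi.single_apply]; split_ifs <;> norm_num
      have := mul_nonneg hM0 this
      linarith
    have h1 := hfO _ hmem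
    rw [hf] at h1
    have h2 : ∑ j, a j * ((c' + 1) + M * (Pi.single i (1:ℝ) : ι → ℝ) j) = A * (c' + 1) + M * a i := by
      have e1 : ∑ j, a j * (Pi.single i (1:ℝ) : ι → ℝ) j = a i := by
        rw [Finset.sum_eq_single i]
        · simp
        · intro j _ hj
          simp [hj]
        · intro h; exact absurd (Finset.mem_univ i) h
      calc ∑ j, a j * ((c' + 1) + M * (Pi.single i (1:ℝ) : ι → ℝ) j)
          = ∑ j, (a j * (c' + 1) + M * (a j * (Pi.single i (1:ℝ) : ι → ℝ) j)) :=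
            Finset.sum_congr rfl fun j _ => by ring
        _ = (∑ j, a j) * (c' + 1) + M * ∑ j, a j * (Pi.single i (1:ℝ) : ι → ℝ) j := by
            rw [Finset.sum_add_distrib, Finset.sum_mul, Finset.mul_sum]
        _ = A * (c' + 1) + M * a i := by rw [e1, ← hA]
    rw [h2] at h1
    have h3 : M * a i = - max 0 (A * (c' + 1)) := by
      rw [hM]
      have : a i ≠ 0 := hneg.ne
      field_simp
    rw [h3] at h1
    have h4 := le_max_right 0 (A * (c' + 1))
    linarith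
  have hA0 : 0 ≤ A := by rw [hA]; exact Finset.sum_nonneg fun i _ => ha0 i
  have hcA : -u ≤ c' * A := by
    refine le_of_forall_pos_le_add fun δ hδ => ?_
    have h1 := hconst (c' + δ / (A + 1)) (by have : 0 < δ / (A + 1) := by positivity
                                             linarith)
    have h2 : A * (δ / (A + 1)) ≤ δ := by
      rw [← mul_div_assoc, div_le_iff₀ (by linarith)]
      nlinarith
    nlinarith
  obtain ⟨g, hg⟩ : ∃ g : StrongDual 𝕜 X, g = ∑ i, ((a i : ℝ) : 𝕜) • z i := ⟨_, rfl⟩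
  have hgre : ∀ x : X, ‖x‖ ≤ 1 → RCLike.re (g x) ≤ c' * A := by
    intro x hx
    have h1 := hfW (fun i => RCLike.re (z i x)) (by rw [hW]; exact ⟨x, hx, fun i => rfl⟩)
    rw [hf] at h1
    have h2 : RCLike.re (g x) = ∑ i, a i * RCLike.re (z i x) := by
      rw [hg]
      simp only [_root_.sum_apply, _root_.smul_apply, smul_eq_mul, map_sum,
        RCLike.re_ofReal_mul]
    rw [h2]
    linarith
  have hgn : ‖g‖ ≤ c' * A := by
    refine ContinuousLinearMap.opNorm_le_bound _ (mul_nonneg hc' hA0) fun x => ?_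
    by_cases hx : x = 0
    · rw [hx, map_zero, norm_zero, norm_zero, mul_zero]
    · have hxn : 0 < ‖x‖ := norm_pos_iff.2 hx
      obtain ⟨θ, hθ, hθx⟩ := RCLike.exists_norm_eq_mul_self (g x)
      have h1 := hgre ((((‖x‖⁻¹ : ℝ)) : 𝕜) • θ • x) (by
        rw [norm_smul, norm_smul, hθ, RCLike.norm_ofReal, abs_of_pos (inv_pos.2 hxn), one_mul,
          inv_mul_cancel₀ hxn.ne'])
      rw [g.map_smul, g.map_smul, smul_eq_mul, smul_eq_mul, ← hθx, RCLike.re_ofReal_mul,
        RCLike.ofReal_re] at h1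
      rw [inv_mul_le_iff₀ hxn] at h1
      linarith
  have h1 := hz a ha0
  rw [← hg, ← hA] at h1
  have h2 : A = 0 := by
    have : (c - c') * A ≤ 0 := by nlinarith
    have h3 : A ≤ 0 := by
      by_contra h4
      push Not at h4
      have := mul_pos (sub_pos.2 hcc) h4
      linarith
    linarith
  have h3 := hconst (c' + 1) (by linarith)
  rw [h2, zero_mul] at h3
  linarith

end Pool.Agent.Helper318.L1D
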