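import Pool.Agent.Helper318.L1D.Defs
import Pool.Agent.Helper318.L1D.P_chi_norm
import Pool.Agent.Helper318.L1D.P_chi_ae

set_option autoImplicit false

open MeasureTheory Set Filter Topology

namespace Pool.Agent.Helper318.L1D



theorem norm_sum_chi {𝕜 : Type*} [RCLike 𝕜] {Ω : Type*} [MeasurableSpace Ω] (μ : Measure Ω)
    {ι : Type*} [Fintype ι] (A : ι → Set Ω) (hA : ∀ i, MeasurableSet (A i))
    (hμ : ∀ i, μ (A i) < ⊤) (hd : Pairwise fun i j => Disjoint (A i) (A j)) (b : ι → 𝕜) :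
    ‖∑ i, b i • chi 𝕜 μ (A i)‖ = ∑ i, ‖b i‖ * μ.real (A i) := by
  classical
  have hae : ∀ S : Finset ι, (↑(∑ i ∈ S, b i • chi 𝕜 μ (A i)) : Ω → 𝕜) =ᵐ[μ]
      fun ω => ∑ i ∈ S, b i * (A i).indicator (fun _ => (1 : 𝕜)) ω := by
    intro S
    induction S using Finset.induction_on with
    | empty =>
      simp only [Finset.sum_empty]
      exact Lp.coeFn_zero 𝕜 1 μ
    | insert i S hi ih =>
      rw [Finset.sum_insert hi]
      filter_upwards [Lp.coeFn_add (b i • chi 𝕜 μ (A i)) (∑ j ∈ S, b j • chi 𝕜 μ (A j)),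
        Lp.coeFn_smul (b i) (chi 𝕜 μ (A i)), chi_ae (𝕜 := 𝕜) μ (hA i) (hμ i), ih] with ω h1 h2 h3 h4
      rw [h1, Pi.add_apply, h2, Pi.smul_apply, h3, h4, Finset.sum_insert hi, smul_eq_mul]
  have hnorm : ∀ ω, ‖∑ i, b i * (A i).indicator (fun _ => (1 : 𝕜)) ω‖
      = ∑ i, (A i).indicator (fun _ => ‖b i‖) ω := by
    intro ω
    by_cases h : ∃ j, ω ∈ A j
    · obtain ⟨j, hj⟩ := h
      have hnot : ∀ i, i ≠ j → ω ∉ A i := by
        intro i hij hi
        exact Set.disjoint_left.1 (hd hij) hi hj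
      rw [Finset.sum_eq_single j, Finset.sum_eq_single j]
      · rw [Set.indicator_of_mem hj, Set.indicator_of_mem hj, mul_one]
      · intro i _ hij
        exact Set.indicator_of_notMem (hnot i hij) _
      · intro h; exact absurd (Finset.mem_univ j) h
      · intro i _ hij
        rw [Set.indicator_of_notMem (hnot i hij), mul_zero]
      · intro h; exact absurd (Finset.mem_univ j) h
    · push Not at h
      rw [Finset.sum_eq_zero, Finset.sum_eq_zero, norm_zero]
      · intro i _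
        exact Set.indicator_of_notMem (h i) _
      · intro i _
        rw [Set.indicator_of_notMem (h i), mul_zero]
  rw [L1.norm_eq_integral_norm]
  have h1 : ∫ ω, ‖(∑ i, b i • chi 𝕜 μ (A i) : Lp 𝕜 1 μ) ω‖ ∂μ
      = ∫ ω, ∑ i, (A i).indicator (fun _ => ‖b i‖) ω ∂μ := by
    apply integral_congr_ae
    filter_upwards [hae Finset.univ] with ω hω
    rw [hω, hnorm]
  rw [h1, integral_finset_sum]
  · refine Finset.sum_congr rfl fun i _ => ?_
    rw [integral_indicator_const _ (hA i), smul_eq_mul, mul_comm]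
  · intro i _
    rw [integrable_indicator_iff (hA i)]
    exact integrableOn_const (hμ i).ne

end Pool.Agent.Helper318.L1D
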