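import Pool.Agent.Helper318.L1D.Defs
import Pool.Agent.Helper318.L1D.P_minimax
import Pool.Agent.Helper318.L1D.P_chi_norm
import Pool.Agent.Helper318.L1D.P_norm_sum_chi
import Pool.Agent.Helper318.L1D.P_hahn

set_option autoImplicit false

open MeasureTheory Set Filter Topology

namespace Pool.Agent.Helper318.L1D



theorem shrink_one {𝕜 : Type*} [RCLike 𝕜] {Ω : Type*} [MeasurableSpace Ω] {μ : Measure Ω}
    {X : Type*} [NormedAddCommGroup X] [NormedSpace 𝕜 X]
    (T : Lp 𝕜 1 μ →L[𝕜] StrongDual 𝕜 X) (c : ℝ) (hc : 0 < c) (hT : ∀ f, c * ‖f‖ ≤ ‖T f‖)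
    {ι : Type*} [Fintype ι] (A : ι → Set Ω) (hA : ∀ i, MeasurableSet (A i))
    (hpos : ∀ i, 0 < μ (A i)) (hfin : ∀ i, μ (A i) < ⊤)
    (hd : Pairwise fun i j => Disjoint (A i) (A j)) (θ : ι → Bool) :
    ∃ x : X, ‖x‖ ≤ 1 ∧ ∃ A' : ι → Set Ω,
      (∀ i, A' i ⊆ A i ∧ MeasurableSet (A' i) ∧ 0 < μ (A' i)) ∧ Tests T (c / 2) x θ A' := by
  have hreal : ∀ i, 0 < μ.real (A i) := fun i => ENNReal.toReal_pos (hpos i).ne' (hfin i).ne
  obtain ⟨sg, hsg⟩ : ∃ sg : ι → 𝕜, ∀ i, sg i = if θ i then 1 else -1 := ⟨_, fun _ => rfl⟩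
  have hsgn : ∀ i, ‖sg i‖ = 1 := by
    intro i
    rw [hsg]
    split_ifs <;> simp
  have hsv : ∀ i (v : StrongDual 𝕜 X), sv (θ i) v = sg i • v := by
    intro i v
    rw [hsg]
    cases θ i
    · simp only [sv, Bool.false_eq_true, if_false]
      ext w
      show -(v w) = (-1 : 𝕜) * v w
      ring
    · simp only [sv, if_true]
      ext w
      show v w = (1 : 𝕜) * v w
      ring
  obtain ⟨x, hx1, hx⟩ := minimax (𝕜 := 𝕜) (X := X)
    (fun i => sv (θ i) (T (uni 𝕜 μ (A i)))) c (c / 2) (by linarith) (by linarith) (by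
    intro a ha
    have e1 : ∑ i, ((a i : ℝ) : 𝕜) • sv (θ i) (T (uni 𝕜 μ (A i))) =
        T (∑ i, (((a i : ℝ) : 𝕜) * (sg i * (((μ.real (A i))⁻¹ : ℝ) : 𝕜))) • chi 𝕜 μ (A i)) := by
      rw [map_sum]
      apply Finset.sum_congr rfl
      intro i _
      rw [hsv, uni, map_smul, map_smul, smul_smul, smul_smul, mul_assoc]
    rw [e1]
    refine le_trans (le_of_eq ?_) (hT _)
    rw [norm_sum_chi μ A hA hfin hd]
    congr 1
    apply Finset.sum_congr rfl
    intro i _
    rw [norm_mul, norm_mul, hsgn, RCLike.norm_ofReal, RCLike.norm_ofReal, abs_of_nonneg (ha i),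
      abs_of_pos (inv_pos.2 (hreal i)), one_mul, mul_assoc, inv_mul_cancel₀ (hreal i).ne',
      mul_one])
  have hφ : ∀ i, ∃ φ : Lp 𝕜 1 μ →+ ℝ, Continuous φ ∧
      ∀ f, φ f = sv (θ i) (RCLike.re (T f x)) := by
    intro i
    refine ⟨{ toFun := fun f => sv (θ i) (RCLike.re (T f x)), map_zero' := ?_, map_add' := ?_ },
      ?_, fun f => rfl⟩
    · cases θ i <;> simp [sv]
    · intro f g
      rw [map_add, add_apply, map_add]
      cases θ i <;> simp [sv]
      ring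
    · have h1 : Continuous (fun f => RCLike.re (T f x)) := by
        apply RCLike.continuous_re.comp
        exact (ContinuousLinearMap.apply 𝕜 𝕜 x).continuous.comp T.continuous
      show Continuous (fun f => sv (θ i) (RCLike.re (T f x)))
      cases θ i
      · simp only [sv, Bool.false_eq_true, if_false]
        exact h1.neg
      · simp only [sv, if_true]
        exact h1
  choose φ hφc hφe using hφ
  have hlt : ∀ i, (c / 2) * μ.real (A i) < φ i (chi 𝕜 μ (A i)) := by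
    intro i
    have h1 := hx i
    have h2 : RCLike.re ((sv (θ i) (T (uni 𝕜 μ (A i)))) x) =
        (μ.real (A i))⁻¹ * φ i (chi 𝕜 μ (A i)) := by
      rw [hφe]
      have h3 : RCLike.re ((T (uni 𝕜 μ (A i))) x) =
          (μ.real (A i))⁻¹ * RCLike.re ((T (chi 𝕜 μ (A i))) x) := by
        rw [uni, map_smul, smul_apply, smul_eq_mul, RCLike.re_ofReal_mul]
      cases θ i
      · simp only [sv, Bool.false_eq_true, if_false]
        rw [neg_apply, map_neg, h3]
        ring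
      · simp only [sv, if_true]
        rw [h3]
    rw [h2, inv_mul_eq_div, lt_div_iff₀ (hreal i)] at h1
    exact h1
  have hA' : ∀ i, ∃ A' ⊆ A i, MeasurableSet A' ∧ 0 < μ A' ∧
      ∀ B ⊆ A', MeasurableSet B → (c / 2) * μ.real B ≤ φ i (chi 𝕜 μ B) := fun i =>
    hahn μ (φ i) (hφc i) (c / 2) (hA i) (hfin i) (hlt i)
  choose A' h1 h2 h3 h4 using hA'
  refine ⟨x, hx1, A', fun i => ⟨h1 i, h2 i, h3 i⟩, ?_⟩
  intro i B hB hBm
  rw [← hφe]
  exact h4 i B hB hBm

end Pool.Agent.Helper318.L1D
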