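import Pool.Agent.Helper318.L1D.Defs
import Pool.Agent.Helper318.L1D.P_shrink_one

set_option autoImplicit false

open MeasureTheory Set Filter Topology

namespace Pool.Agent.Helper318.L1D



theorem shrink_all {𝕜 : Type*} [RCLike 𝕜] {Ω : Type*} [MeasurableSpace Ω] {μ : Measure Ω}
    {X : Type*} [NormedAddCommGroup X] [NormedSpace 𝕜 X]
    (T : Lp 𝕜 1 μ →L[𝕜] StrongDual 𝕜 X) (c : ℝ) (hc : 0 < c) (hT : ∀ f, c * ‖f‖ ≤ ‖T f‖)
    {ι : Type*} [Fintype ι] (A : ι → Set Ω) (hA : ∀ i, MeasurableSet (A i))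
    (hpos : ∀ i, 0 < μ (A i)) (hfin : ∀ i, μ (A i) < ⊤)
    (hd : Pairwise fun i j => Disjoint (A i) (A j)) :
    ∃ A' : ι → Set Ω, (∀ i, A' i ⊆ A i ∧ MeasurableSet (A' i) ∧ 0 < μ (A' i)) ∧
      ∀ θ : ι → Bool, ∃ x : X, ‖x‖ ≤ 1 ∧ Tests T (c / 2) x θ A' := by
  classical
  have key : ∀ Θ : Finset (ι → Bool), ∃ A' : ι → Set Ω,
      (∀ i, A' i ⊆ A i ∧ MeasurableSet (A' i) ∧ 0 < μ (A' i)) ∧
      ∀ θ ∈ Θ, ∃ x : X, ‖x‖ ≤ 1 ∧ Tests T (c / 2) x θ A' := by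
    intro Θ
    induction Θ using Finset.induction_on with
    | empty => exact ⟨A, fun i => ⟨subset_rfl, hA i, hpos i⟩, by simp⟩
    | insert θ Θ _ ih =>
      obtain ⟨A', h1, h2⟩ := ih
      obtain ⟨x, hx, A'', h3, h4⟩ := shrink_one T c hc hT A' (fun i => (h1 i).2.1)
        (fun i => (h1 i).2.2) (fun i => lt_of_le_of_lt (measure_mono (h1 i).1) (hfin i))
        (fun i j hij => (hd hij).mono (h1 i).1 (h1 j).1) θ
      refine ⟨A'', fun i => ⟨(h3 i).1.trans (h1 i).1, (h3 i).2⟩, ?_⟩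
      intro θ' hθ'
      rcases Finset.mem_insert.1 hθ' with rfl | hθ'
      · exact ⟨x, hx, h4⟩
      · obtain ⟨y, hy, hty⟩ := h2 θ' hθ'
        exact ⟨y, hy, fun i B hB hBm => hty i B (hB.trans (h3 i).1) hBm⟩
  obtain ⟨A', h1, h2⟩ := key Finset.univ
  exact ⟨A', h1, fun θ => h2 θ (Finset.mem_univ θ)⟩

end Pool.Agent.Helper318.L1D
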