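import Pool.Agent.Helper318.L1D.Defs

set_option autoImplicit false

open MeasureTheory Set Filter Topology

namespace Pool.Agent.Helper318.L1D



theorem split {Ω : Type*} [MeasurableSpace Ω] {μ : Measure Ω} {E : Set Ω}
    (hE : AtomlessPiece μ E) {A : Set Ω} (hAE : A ⊆ E) (hA : MeasurableSet A) (hpos : 0 < μ A)
    (n : ℕ) : ∃ B : Fin n → Set Ω, (∀ i, B i ⊆ A ∧ MeasurableSet (B i) ∧ 0 < μ (B i)) ∧
      Pairwise fun i j => Disjoint (B i) (B j) := by
  induction n generalizing A with
  | zero => exact ⟨fun i => i.elim0, fun i => i.elim0, fun i => i.elim0⟩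
  | succ n ih =>
    have hna := hE.2.2.2 A hAE
    have h1 : ∃ B ⊆ A, MeasurableSet B ∧ μ B ≠ 0 ∧ μ (A \ B) ≠ 0 := by
      by_contra hcon
      apply hna
      refine ⟨hA, hpos, fun B hB hBm => ?_⟩
      by_contra h
      rw [not_or] at h
      exact hcon ⟨B, hB, hBm, h.1, h.2⟩
    obtain ⟨B, hBA, hBm, hB0, hAB0⟩ := h1
    obtain ⟨C, hC, hCd⟩ := ih (A := A \ B) (Set.sdiff_subset.trans hAE) (hA.diff hBm)
      (pos_iff_ne_zero.mpr hAB0)
    refine ⟨Fin.cons B C, ?_, ?_⟩
    · intro i
      refine Fin.cases ?_ (fun j => ?_) i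
      · rw [Fin.cons_zero]
        exact ⟨hBA, hBm, pos_iff_ne_zero.mpr hB0⟩
      · rw [Fin.cons_succ]
        exact ⟨(hC j).1.trans Set.sdiff_subset, (hC j).2.1, (hC j).2.2⟩
    · have key : ∀ j, Disjoint B (C j) := fun j =>
        Set.disjoint_of_subset_right (hC j).1 Set.disjoint_sdiff_right
      intro i j
      refine Fin.cases ?_ (fun i' => ?_) i
      · refine Fin.cases ?_ (fun j' => ?_) j
        · intro h; exact absurd rfl h
        · intro _
          simpa using key j'
      · refine Fin.cases ?_ (fun j' => ?_) j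
        · intro _
          simpa using (key i').symm
        · intro h
          have h' : i' ≠ j' := fun e => h (by rw [e])
          simpa using hCd h'

end Pool.Agent.Helper318.L1D
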