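import Pool.Agent.Helper318.L1D.Defs
import Pool.Agent.Helper318.L1D.P_shrink_all
import Pool.Agent.Helper318.L1D.P_split

set_option autoImplicit false

open MeasureTheory Set Filter Topology

namespace Pool.Agent.Helper318.L1D



theorem tree_step {𝕜 : Type*} [RCLike 𝕜] {Ω : Type*} [MeasurableSpace Ω] {μ : Measure Ω}
    {X : Type*} [NormedAddCommGroup X] [NormedSpace 𝕜 X]
    (T : Lp 𝕜 1 μ →L[𝕜] StrongDual 𝕜 X) (c : ℝ) (hc : 0 < c) (hT : ∀ f, c * ‖f‖ ≤ ‖T f‖)
    {E : Set Ω} (hE : AtomlessPiece μ E) (n : ℕ) (A : (Fin n → Bool × Bool) → Set Ω)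
    (hAE : ∀ s, A s ⊆ E) (hA : ∀ s, MeasurableSet (A s)) (hpos : ∀ s, 0 < μ (A s))
    (hd : Pairwise fun s s' => Disjoint (A s) (A s')) :
    ∃ A' : (Fin (n + 1) → Bool × Bool) → Set Ω, (∀ s, A' s ⊆ A (Fin.init s)) ∧
      (∀ s, MeasurableSet (A' s)) ∧ (∀ s, 0 < μ (A' s)) ∧
      (Pairwise fun s s' => Disjoint (A' s) (A' s')) ∧
      ∀ θ : (Fin (n + 1) → Bool × Bool) → Bool, ∃ x : X, ‖x‖ ≤ 1 ∧ Tests T (c / 2) x θ A' := by
  choose B hB hBd using fun s => split hE (hAE s) (hA s) (hpos s) 4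
  let q : Bool × Bool ≃ Fin 4 := Fintype.equivFinOfCardEq (by simp)
  have hdis : Pairwise fun s s' : Fin (n + 1) → Bool × Bool =>
      Disjoint (B (Fin.init s) (q (s (Fin.last n)))) (B (Fin.init s') (q (s' (Fin.last n)))) := by
    intro s s' hss
    by_cases hi : (Fin.init s : Fin n → Bool × Bool) = Fin.init s'
    · have hl : s (Fin.last n) ≠ s' (Fin.last n) := by
        intro hl
        apply hss
        rw [← Fin.snoc_init_self s, ← Fin.snoc_init_self s']
        rw [hl]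
        congr 1
      rw [← hi]
      exact hBd (Fin.init s) (fun h => hl (q.injective h))
    · exact (hd hi).mono (hB _ _).1 (hB _ _).1
  obtain ⟨A', hA', hθ⟩ := shrink_all T c hc hT
    (fun s : Fin (n + 1) → Bool × Bool => B (Fin.init s) (q (s (Fin.last n))))
    (fun s => (hB _ _).2.1) (fun s => (hB _ _).2.2)
    (fun s => (measure_mono ((hB _ _).1.trans (hAE _))).trans_lt hE.2.2.1) hdis
  refine ⟨A', fun s => (hA' s).1.trans (hB _ _).1, fun s => (hA' s).2.1, fun s => (hA' s).2.2, ?_, hθ⟩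
  intro s s' hss
  exact (hdis hss).mono (hA' s).1 (hA' s').1

end Pool.Agent.Helper318.L1D
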