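import Pool.Agent.Helper318.L1D.Defs
import Pool.Agent.Helper318.L1D.P_tree_step

set_option autoImplicit false

open MeasureTheory Set Filter Topology

namespace Pool.Agent.Helper318.L1D



theorem tree {𝕜 : Type*} [RCLike 𝕜] {Ω : Type*} [MeasurableSpace Ω] {μ : Measure Ω}
    {X : Type*} [NormedAddCommGroup X] [NormedSpace 𝕜 X]
    (T : Lp 𝕜 1 μ →L[𝕜] StrongDual 𝕜 X) (c : ℝ) (hc : 0 < c) (hT : ∀ f, c * ‖f‖ ≤ ‖T f‖)
    {E : Set Ω} (hE : AtomlessPiece μ E) :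
    ∃ A : (n : ℕ) → (Fin n → Bool × Bool) → Set Ω, IsTree T (c / 2) A := by
  have step : ∀ (n : ℕ) (A : {A : (Fin n → Bool × Bool) → Set Ω // (∀ s, A s ⊆ E) ∧
      (∀ s, MeasurableSet (A s)) ∧ (∀ s, 0 < μ (A s)) ∧
      Pairwise fun s s' => Disjoint (A s) (A s')}),
      ∃ A' : {A : (Fin (n + 1) → Bool × Bool) → Set Ω // (∀ s, A s ⊆ E) ∧
        (∀ s, MeasurableSet (A s)) ∧ (∀ s, 0 < μ (A s)) ∧
        Pairwise fun s s' => Disjoint (A s) (A s')}, (∀ s, A'.1 s ⊆ A.1 (Fin.init s)) ∧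
        ∀ θ : (Fin (n + 1) → Bool × Bool) → Bool, ∃ x : X, ‖x‖ ≤ 1 ∧
          Tests T (c / 2) x θ A'.1 := by
    rintro n ⟨A, h1, h2, h3, h4⟩
    obtain ⟨A', a1, a2, a3, a4, a5⟩ := tree_step T c hc hT hE n A h1 h2 h3 h4
    exact ⟨⟨A', fun s => (a1 s).trans (h1 _), a2, a3, a4⟩, a1, a5⟩
  choose f hf using step
  have base : (∀ _s : Fin 0 → Bool × Bool, E ⊆ E) ∧
      (∀ _s : Fin 0 → Bool × Bool, MeasurableSet E) ∧ (∀ _s : Fin 0 → Bool × Bool, 0 < μ E) ∧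
      Pairwise fun s s' : Fin 0 → Bool × Bool => Disjoint E E := by
    refine ⟨fun _ => le_rfl, fun _ => hE.1, fun _ => hE.2.1, ?_⟩
    intro s s' hne
    exact absurd (Subsingleton.elim s s') hne
  obtain ⟨F, hF0, hF⟩ : ∃ F : (n : ℕ) → {A : (Fin n → Bool × Bool) → Set Ω // (∀ s, A s ⊆ E) ∧
      (∀ s, MeasurableSet (A s)) ∧ (∀ s, 0 < μ (A s)) ∧
      Pairwise fun s s' => Disjoint (A s) (A s')}, F 0 = ⟨fun _ => E, base⟩ ∧
      ∀ n, F (n + 1) = f n (F n) :=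
    ⟨fun n => Nat.rec ⟨fun _ => E, base⟩ (fun n A => f n A) n, rfl, fun n => rfl⟩
  refine ⟨fun n => (F n).1, ?_⟩
  refine ⟨fun n s => (F n).2.2.1 s, fun n s => (F n).2.2.2.1 s, fun n s => ?_,
    fun n => (F n).2.2.2.2, fun n s => ?_, fun n θ => ?_⟩
  · exact lt_of_le_of_lt (measure_mono ((F n).2.1 s)) hE.2.2.1
  · show (F (n + 1)).1 s ⊆ (F n).1 (Fin.init s)
    rw [hF n]
    exact (hf n (F n)).1 s
  · show ∃ x : X, ‖x‖ ≤ 1 ∧ Tests T (c / 2) x θ (F (n + 1)).1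
    rw [hF n]
    exact (hf n (F n)).2 θ

end Pool.Agent.Helper318.L1D
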