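import Pool.Agent.Helper318.L1D.Defs

set_option autoImplicit false

open MeasureTheory Set Filter Topology

namespace Pool.Agent.Helper318.L1D



theorem weakstar {𝕜 : Type*} [RCLike 𝕜] {X : Type*} [NormedAddCommGroup X] [NormedSpace 𝕜 X]
    {β : Type*} (w : β → ℕ → StrongDual 𝕜 X) (C : ℝ) (hw : ∀ b N, ‖w b N‖ ≤ C) :
    ∃ (U : Ultrafilter ℕ) (z : β → StrongDual 𝕜 X), (U : Filter ℕ) ≤ atTop ∧
      ∀ b x, Tendsto (fun N => w b N x) U (𝓝 (z b x)) := by
  have hU : ((hyperfilter ℕ : Ultrafilter ℕ) : Filter ℕ) ≤ atTop := by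
    rw [← Nat.cofinite_eq_atTop]
    exact hyperfilter_le_cofinite
  have key : ∀ b, ∃ z : StrongDual 𝕜 X, ∀ x,
      Tendsto (fun N => w b N x) (hyperfilter ℕ : Ultrafilter ℕ) (𝓝 (z x)) := by
    intro b
    have hK := WeakDual.isCompact_closedBall (𝕜 := 𝕜) (E := X) (0 : StrongDual 𝕜 X) C
    obtain ⟨z', -, hz'⟩ := hK.ultrafilter_le_nhds
      ((hyperfilter ℕ : Ultrafilter ℕ).map (fun N => StrongDual.toWeakDual (w b N))) (by
        rw [Filter.le_principal_iff, Ultrafilter.mem_coe, Ultrafilter.mem_map]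
        refine Filter.univ_mem' fun N => ?_
        show WeakDual.toStrongDual (StrongDual.toWeakDual (w b N)) ∈ Metric.closedBall 0 C
        rw [mem_closedBall_zero_iff]
        exact hw b N)
    refine ⟨WeakDual.toStrongDual z', fun x => ?_⟩
    have h1 : Tendsto (fun N => StrongDual.toWeakDual (w b N)) (hyperfilter ℕ : Ultrafilter ℕ) (𝓝 z') := hz'
    exact ((WeakDual.eval_continuous x).tendsto z').comp h1
  choose z hz using key
  exact ⟨hyperfilter ℕ, z, hU, hz⟩

end Pool.Agent.Helper318.L1D
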