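import Pool.Agent.Helper318.L1D.Defs
import Pool.Agent.Helper318.L1D.P_tree
import Pool.Agent.Helper318.L1D.P_rad_upper
import Pool.Agent.Helper318.L1D.P_rad_lower
import Pool.Agent.Helper318.L1D.P_weakstar

set_option autoImplicit false

open MeasureTheory Set Filter Topology

namespace Pool.Agent.Helper318.L1D



theorem family_sv_map {V W F : Type*} [AddCommGroup V] [AddCommGroup W] [FunLike F V W]
    [AddMonoidHomClass F V W] (f : F) (b : Bool) (v : V) : f (sv b v) = sv b (f v) := by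
  cases b <;> simp [sv]

theorem family_sv_tendsto {V : Type*} [AddCommGroup V] [TopologicalSpace V]
    [IsTopologicalAddGroup V] {l : Filter ℕ} {u : ℕ → V} {a : V} (b : Bool)
    (h : Tendsto u l (𝓝 a)) : Tendsto (fun N => sv b (u N)) l (𝓝 (sv b a)) := by
  cases b
  · simpa [sv] using h.neg
  · simpa [sv] using h

theorem family {𝕜 : Type*} [RCLike 𝕜] {Ω : Type*} [MeasurableSpace Ω] {μ : Measure Ω}
    {X : Type*} [NormedAddCommGroup X] [NormedSpace 𝕜 X]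
    (T : Lp 𝕜 1 μ ≃L[𝕜] StrongDual 𝕜 X) {E : Set Ω} (hE : AtomlessPiece μ E) :
    ∃ (K δ : ℝ) (g : (ℕ → Bool) → ℕ → Lp 𝕜 1 μ), 0 < δ ∧ (∀ t, TwoSeq K (g t)) ∧
      ∀ J : Finset (ℕ → Bool), ∃ n₀ : ℕ, ∀ n ≥ n₀, ∀ ε : (ℕ → Bool) → Bool,
        δ * J.card ≤ ‖∑ t ∈ J, sv (ε t) (g t n)‖ := by
  obtain ⟨T', hT'⟩ : ∃ T' : Lp 𝕜 1 μ →L[𝕜] StrongDual 𝕜 X, ∀ f, T' f = T f :=
    ⟨(T : Lp 𝕜 1 μ →L[𝕜] StrongDual 𝕜 X), fun f => rfl⟩
  obtain ⟨Ts, hTs⟩ : ∃ Ts : StrongDual 𝕜 X →L[𝕜] Lp 𝕜 1 μ, ∀ f, Ts f = T.symm f :=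
    ⟨(T.symm : StrongDual 𝕜 X →L[𝕜] Lp 𝕜 1 μ), fun f => rfl⟩
  have hTsT : ∀ f, Ts (T' f) = f := by
    intro f
    rw [hTs, hT', ContinuousLinearEquiv.symm_apply_apply]
  have hTTs : ∀ z, T' (Ts z) = z := by
    intro z
    rw [hTs, hT', ContinuousLinearEquiv.apply_symm_apply]
  have hc : (0:ℝ) < 1 / (‖Ts‖ + 1) := by positivity
  have hlow : ∀ f, 1 / (‖Ts‖ + 1) * ‖f‖ ≤ ‖T' f‖ := by
    intro f
    have h1 : ‖f‖ ≤ ‖Ts‖ * ‖T' f‖ := by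
      calc ‖f‖ = ‖Ts (T' f)‖ := by rw [hTsT]
        _ ≤ _ := Ts.le_opNorm _
    rw [div_mul_eq_mul_div, one_mul, div_le_iff₀ (by positivity)]
    nlinarith [norm_nonneg (T' f)]
  obtain ⟨A, hA⟩ := tree T' _ hc hlow hE
  have hrad : ∀ t n N, ‖rad (𝕜 := 𝕜) (μ := μ) A t n N‖ ≤ 1 := by
    intro t n N
    have h := rad_upper (𝕜 := 𝕜) A hA.meas hA.pos hA.fin hA.disj t N {n} (fun _ => true)
    simpa [sv] using h
  obtain ⟨U, z, hU, hz⟩ := weakstar (β := (ℕ → Bool) × ℕ)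
    (fun b N => T' (rad (𝕜 := 𝕜) (μ := μ) A b.1 b.2 N)) ‖T'‖ (by
      intro b N
      calc ‖T' (rad A b.1 b.2 N)‖ ≤ ‖T'‖ * ‖rad (𝕜 := 𝕜) (μ := μ) A b.1 b.2 N‖ := T'.le_opNorm _
        _ ≤ ‖T'‖ * 1 := mul_le_mul_of_nonneg_left (hrad _ _ _) T'.opNorm_nonneg
        _ = ‖T'‖ := mul_one _)
  have hT0 : (0:ℝ) < ‖T'‖ + 1 := by positivity
  refine ⟨‖Ts‖ * ‖T'‖, 1 / (‖Ts‖ + 1) / 2 / (‖T'‖ + 1), fun t n => Ts (z (t, n)), by positivity,
    ?_, ?_⟩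
  · intro t S ε
    have e1 : ∑ n ∈ S, sv (ε n) (Ts (z (t, n))) = Ts (∑ n ∈ S, sv (ε n) (z (t, n))) := by
      rw [map_sum]
      exact Finset.sum_congr rfl (fun n _ => (family_sv_map Ts _ _).symm)
    rw [e1]
    have h2 : ‖∑ n ∈ S, sv (ε n) (z (t, n))‖ ≤ ‖T'‖ * √(S.card) := by
      apply ContinuousLinearMap.opNorm_le_bound _ (by positivity)
      intro x
      have hlim : Tendsto (fun N => ∑ n ∈ S, sv (ε n) (T' (rad (𝕜 := 𝕜) (μ := μ) A t n N) x))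
          (U : Filter ℕ) (𝓝 (∑ n ∈ S, sv (ε n) (z (t, n) x))) :=
        tendsto_finsetSum _ (fun n _ => family_sv_tendsto _ (hz (t, n) x))
      have e2 : (∑ n ∈ S, sv (ε n) (z (t, n))) x = ∑ n ∈ S, sv (ε n) (z (t, n) x) := by
        rw [ContinuousLinearMap.sum_apply]
        refine Finset.sum_congr rfl (fun n _ => ?_)
        cases ε n <;> simp [sv]
      rw [e2]
      refine le_of_tendsto hlim.norm (Filter.Eventually.of_forall (fun N => ?_))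
      have e3 : ∑ n ∈ S, sv (ε n) (T' (rad (𝕜 := 𝕜) (μ := μ) A t n N) x) =
          (T' (∑ n ∈ S, sv (ε n) (rad (𝕜 := 𝕜) (μ := μ) A t n N))) x := by
        rw [map_sum, ContinuousLinearMap.sum_apply]
        refine Finset.sum_congr rfl (fun n _ => ?_)
        cases ε n <;> simp [sv]
      rw [e3]
      calc ‖(T' (∑ n ∈ S, sv (ε n) (rad (𝕜 := 𝕜) (μ := μ) A t n N))) x‖
          ≤ ‖T' (∑ n ∈ S, sv (ε n) (rad (𝕜 := 𝕜) (μ := μ) A t n N))‖ * ‖x‖ :=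
            ContinuousLinearMap.le_opNorm _ _
        _ ≤ (‖T'‖ * ‖∑ n ∈ S, sv (ε n) (rad (𝕜 := 𝕜) (μ := μ) A t n N)‖) * ‖x‖ :=
            mul_le_mul_of_nonneg_right (T'.le_opNorm _) (norm_nonneg _)
        _ ≤ (‖T'‖ * √(S.card)) * ‖x‖ := by
            apply mul_le_mul_of_nonneg_right _ (norm_nonneg _)
            exact mul_le_mul_of_nonneg_left
              (rad_upper A hA.meas hA.pos hA.fin hA.disj t N S ε) T'.opNorm_nonneg
    calc ‖Ts (∑ n ∈ S, sv (ε n) (z (t, n)))‖ ≤ ‖Ts‖ * ‖∑ n ∈ S, sv (ε n) (z (t, n))‖ :=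
          Ts.le_opNorm _
      _ ≤ ‖Ts‖ * (‖T'‖ * √(S.card)) := mul_le_mul_of_nonneg_left h2 Ts.opNorm_nonneg
      _ = ‖Ts‖ * ‖T'‖ * √(S.card) := by ring
  · intro J
    obtain ⟨n₀, hn₀⟩ := rad_lower (by positivity) hA J
    refine ⟨n₀, fun n hn ε => ?_⟩
    obtain ⟨x, hx1, hx⟩ := hn₀ n hn ε
    have h1 : ∀ t ∈ J, 1 / (‖Ts‖ + 1) / 2 ≤ sv (ε t) (RCLike.re (z (t, n) x)) := by
      intro t ht
      have hlim : Tendsto (fun N => sv (ε t)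
          (RCLike.re (T' (rad (𝕜 := 𝕜) (μ := μ) A t n N) x))) (U : Filter ℕ)
          (𝓝 (sv (ε t) (RCLike.re (z (t, n) x)))) :=
        family_sv_tendsto _ ((RCLike.continuous_re.tendsto _).comp (hz (t, n) x))
      refine ge_of_tendsto hlim ?_
      have hev : ∀ᶠ N in (U : Filter ℕ), n < N := hU (eventually_gt_atTop n)
      filter_upwards [hev] with N hN
      exact hx t ht N hN
    have h2 : 1 / (‖Ts‖ + 1) / 2 * J.card ≤ ‖∑ t ∈ J, sv (ε t) (z (t, n))‖ := by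
      calc 1 / (‖Ts‖ + 1) / 2 * J.card = ∑ t ∈ J, 1 / (‖Ts‖ + 1) / 2 := by
            rw [Finset.sum_const, nsmul_eq_mul, mul_comm]
        _ ≤ ∑ t ∈ J, sv (ε t) (RCLike.re (z (t, n) x)) := Finset.sum_le_sum h1
        _ = RCLike.re ((∑ t ∈ J, sv (ε t) (z (t, n))) x) := by
            rw [ContinuousLinearMap.sum_apply, map_sum]
            refine Finset.sum_congr rfl (fun t _ => ?_)
            cases ε t <;> simp [sv]
        _ ≤ ‖(∑ t ∈ J, sv (ε t) (z (t, n))) x‖ := RCLike.re_le_norm _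
        _ ≤ ‖∑ t ∈ J, sv (ε t) (z (t, n))‖ * ‖x‖ := ContinuousLinearMap.le_opNorm _ _
        _ ≤ ‖∑ t ∈ J, sv (ε t) (z (t, n))‖ * 1 :=
            mul_le_mul_of_nonneg_left hx1 (norm_nonneg _)
        _ = _ := mul_one _
    have h3 : ‖∑ t ∈ J, sv (ε t) (z (t, n))‖ ≤
        (‖T'‖ + 1) * ‖∑ t ∈ J, sv (ε t) (Ts (z (t, n)))‖ := by
      have e4 : ∑ t ∈ J, sv (ε t) (z (t, n)) = T' (∑ t ∈ J, sv (ε t) (Ts (z (t, n)))) := by
        rw [map_sum]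
        refine Finset.sum_congr rfl (fun t _ => ?_)
        rw [family_sv_map T', hTTs]
      rw [e4]
      refine (T'.le_opNorm _).trans ?_
      exact mul_le_mul_of_nonneg_right (by linarith) (norm_nonneg _)
    rw [div_mul_eq_mul_div, div_le_iff₀ hT0]
    linarith

end Pool.Agent.Helper318.L1D
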