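import Pool.Agent.Helper318.L1D.Defs
import Pool.Agent.Helper318.L1D.P_avg_sq

set_option autoImplicit false

open MeasureTheory Set Filter Topology

namespace Pool.Agent.Helper318.L1D



theorem fi_norm_sv {V : Type*} [SeminormedAddCommGroup V] (b : Bool) (v : V) : ‖sv b v‖ = ‖v‖ := by
  cases b <;> simp [sv]

theorem fi_sv_sub {V : Type*} [AddCommGroup V] (b : Bool) (v w : V) :
    sv b (v - w) = sv b v - sv b w := by
  cases b
  · simp only [sv, Bool.false_eq_true, if_false]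
    abel
  · simp [sv]

theorem fi_pw {𝕜 : Type*} [RCLike 𝕜] {J : Type*} [Fintype J] [DecidableEq J] (v : J → 𝕜) (M : ℝ)
    (hM : 0 ≤ M) :
    ∑ ε : J → Bool, ‖∑ j, sv (ε j) (v j)‖ ≤
      (2 : ℝ) ^ Fintype.card J * (√(Fintype.card J) * M + ∑ j, max (‖v j‖ - M) 0) := by
  let h : J → 𝕜 := fun j => if ‖v j‖ ≤ M then v j else ((M / ‖v j‖ : ℝ) : 𝕜) * v j
  have h1 : ∀ j, ‖h j‖ ≤ M := by
    intro j
    show ‖if ‖v j‖ ≤ M then v j else ((M / ‖v j‖ : ℝ) : 𝕜) * v j‖ ≤ M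
    split_ifs with hj
    · exact hj
    · have hv : 0 < ‖v j‖ := lt_of_le_of_lt hM (not_le.1 hj)
      rw [norm_mul, RCLike.norm_ofReal, abs_of_nonneg (div_nonneg hM hv.le),
        div_mul_cancel₀ _ hv.ne']
  have h2 : ∀ j, ‖v j - h j‖ ≤ max (‖v j‖ - M) 0 := by
    intro j
    show ‖v j - (if ‖v j‖ ≤ M then v j else ((M / ‖v j‖ : ℝ) : 𝕜) * v j)‖ ≤ max (‖v j‖ - M) 0
    split_ifs with hj
    · rw [sub_self, norm_zero]
      exact le_max_right _ _
    · have hv : 0 < ‖v j‖ := lt_of_le_of_lt hM (not_le.1 hj)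
      have h3 : v j - ((M / ‖v j‖ : ℝ) : 𝕜) * v j = ((1 - M / ‖v j‖ : ℝ) : 𝕜) * v j := by
        push_cast
        ring
      have h4 : M / ‖v j‖ ≤ 1 := (div_le_one hv).2 (not_le.1 hj).le
      rw [h3, norm_mul, RCLike.norm_ofReal, abs_of_nonneg (by linarith), sub_mul, one_mul,
        div_mul_cancel₀ _ hv.ne']
      exact le_max_left _ _
  have h3 : ∑ ε : J → Bool, ‖∑ j, sv (ε j) (h j)‖ ≤
      (2 : ℝ) ^ Fintype.card J * (√(Fintype.card J) * M) := by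
    refine (avg_sq h).trans ?_
    refine mul_le_mul_of_nonneg_left ?_ (by positivity)
    have h4 : ∑ j, ‖h j‖ ^ 2 ≤ Fintype.card J * M ^ 2 := by
      calc ∑ j, ‖h j‖ ^ 2 ≤ ∑ _j : J, M ^ 2 :=
            Finset.sum_le_sum fun j _ => pow_le_pow_left₀ (norm_nonneg _) (h1 j) 2
        _ = Fintype.card J * M ^ 2 := by
            rw [Finset.sum_const, Finset.card_univ, nsmul_eq_mul]
    calc √(∑ j, ‖h j‖ ^ 2) ≤ √(Fintype.card J * M ^ 2) := Real.sqrt_le_sqrt h4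
      _ = √(Fintype.card J) * M := by
          rw [Real.sqrt_mul (Nat.cast_nonneg _), Real.sqrt_sq hM]
  have h5 : ∀ ε : J → Bool, ‖∑ j, sv (ε j) (v j)‖ ≤
      ‖∑ j, sv (ε j) (h j)‖ + ∑ j, max (‖v j‖ - M) 0 := by
    intro ε
    have e : ∑ j, sv (ε j) (v j) = ∑ j, sv (ε j) (h j) + ∑ j, sv (ε j) (v j - h j) := by
      rw [← Finset.sum_add_distrib]
      refine Finset.sum_congr rfl fun j _ => ?_
      rw [fi_sv_sub]
      abel
    rw [e]
    refine (norm_add_le _ _).trans (add_le_add le_rfl ?_)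
    refine (norm_sum_le _ _).trans (Finset.sum_le_sum fun j _ => ?_)
    rw [fi_norm_sv]
    exact h2 j
  calc ∑ ε : J → Bool, ‖∑ j, sv (ε j) (v j)‖
      ≤ ∑ ε : J → Bool, (‖∑ j, sv (ε j) (h j)‖ + ∑ j, max (‖v j‖ - M) 0) :=
        Finset.sum_le_sum fun ε _ => h5 ε
    _ = ∑ ε : J → Bool, ‖∑ j, sv (ε j) (h j)‖ +
        (2 : ℝ) ^ Fintype.card J * ∑ j, max (‖v j‖ - M) 0 := by
        rw [Finset.sum_add_distrib, Finset.sum_const, Finset.card_univ, nsmul_eq_mul,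
          Fintype.card_fun, Fintype.card_bool]
        push_cast
        rfl
    _ ≤ _ := by
        rw [mul_add]
        exact add_le_add h3 le_rfl

theorem fi_coe {𝕜 : Type*} [RCLike 𝕜] {Ω : Type*} [MeasurableSpace Ω] {μ : Measure Ω}
    {J : Type*} (s : Finset J) (g : J → Lp 𝕜 1 μ) (ε : J → Bool) :
    ⇑(∑ j ∈ s, sv (ε j) (g j)) =ᵐ[μ] fun ω => ∑ j ∈ s, sv (ε j) (g j ω) := by
  classical
  induction s using Finset.induction_on with
  | empty =>
    simp only [Finset.sum_empty]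
    exact Lp.coeFn_zero 𝕜 1 μ
  | insert a s ha ih =>
    rw [Finset.sum_insert ha]
    have h1 : ⇑(sv (ε a) (g a)) =ᵐ[μ] fun ω => sv (ε a) (g a ω) := by
      cases ε a
      · exact Lp.coeFn_neg (g a)
      · exact ae_eq_refl _
    filter_upwards [Lp.coeFn_add (sv (ε a) (g a)) (∑ j ∈ s, sv (ε j) (g j)), h1, ih] with ω h2 h3 h4
    rw [h2, Pi.add_apply, h3, h4, Finset.sum_insert ha]

theorem final_ineq {𝕜 : Type*} [RCLike 𝕜] {Ω : Type*} [MeasurableSpace Ω] {μ : Measure Ω}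
    {J : Type*} [Fintype J] [DecidableEq J] (g : J → Lp 𝕜 1 μ) (δ : ℝ) (ψ : Ω → ℝ)
    (hψ : Integrable ψ μ) (h0 : ∀ ω, 0 ≤ ψ ω)
    (hlow : ∀ ε : J → Bool, δ * Fintype.card J ≤ ‖∑ j, sv (ε j) (g j)‖)
    (hup : ∀ j, ∫ ω, max (‖g j ω‖ - ψ ω) 0 ∂μ ≤ δ / 2) :
    δ / 2 * Fintype.card J ≤ √(Fintype.card J) * ∫ ω, ψ ω ∂μ := by
  have hP : (0 : ℝ) < 2 ^ Fintype.card J := by positivity
  have hgi : ∀ j, Integrable (fun ω => ‖g j ω‖) μ := fun j => (L1.integrable_coeFn (g j)).norm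
  have hmi : ∀ j, Integrable (fun ω => max (‖g j ω‖ - ψ ω) 0) μ := fun j =>
    ((hgi j).sub hψ).pos_part
  have hsi : ∀ ε : J → Bool, Integrable (fun ω => ‖∑ j, sv (ε j) (g j ω)‖) μ := by
    intro ε
    exact ((L1.integrable_coeFn (∑ j, sv (ε j) (g j))).congr (fi_coe Finset.univ g ε)).norm
  have h1 : ∀ ε : J → Bool, ‖∑ j, sv (ε j) (g j)‖ = ∫ ω, ‖∑ j, sv (ε j) (g j ω)‖ ∂μ := by
    intro ε
    rw [L1.norm_eq_integral_norm]
    refine integral_congr_ae ?_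
    filter_upwards [fi_coe Finset.univ g ε] with ω hω
    rw [hω]
  have h2 : (2 : ℝ) ^ Fintype.card J * (δ * Fintype.card J) ≤
      ∑ ε : J → Bool, ‖∑ j, sv (ε j) (g j)‖ := by
    calc (2 : ℝ) ^ Fintype.card J * (δ * Fintype.card J) =
          ∑ _ε : J → Bool, (δ * Fintype.card J) := by
          rw [Finset.sum_const, Finset.card_univ, nsmul_eq_mul, Fintype.card_fun,
            Fintype.card_bool]
          push_cast
          rfl
      _ ≤ _ := Finset.sum_le_sum fun ε _ => hlow ε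
  have h3 : ∑ ε : J → Bool, ‖∑ j, sv (ε j) (g j)‖ ≤
      (2 : ℝ) ^ Fintype.card J * (√(Fintype.card J) * ∫ ω, ψ ω ∂μ +
        ∑ j, ∫ ω, max (‖g j ω‖ - ψ ω) 0 ∂μ) := by
    simp only [h1]
    rw [← integral_finset_sum _ (fun ε _ => hsi ε), ← integral_finset_sum _ (fun j _ => hmi j),
      ← integral_const_mul, ← integral_add (hψ.const_mul _) (integrable_finset_sum _ fun j _ => hmi j),
      ← integral_const_mul]
    refine integral_mono (integrable_finset_sum _ fun ε _ => hsi ε)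
      (((hψ.const_mul _).add (integrable_finset_sum _ fun j _ => hmi j)).const_mul _) fun ω => ?_
    exact fi_pw (fun j => g j ω) (ψ ω) (h0 ω)
  have h4 : ∑ j, ∫ ω, max (‖g j ω‖ - ψ ω) 0 ∂μ ≤ Fintype.card J * (δ / 2) := by
    calc ∑ j, ∫ ω, max (‖g j ω‖ - ψ ω) 0 ∂μ ≤ ∑ _j : J, δ / 2 :=
          Finset.sum_le_sum fun j _ => hup j
      _ = Fintype.card J * (δ / 2) := by
          rw [Finset.sum_const, Finset.card_univ, nsmul_eq_mul]
  have h5 := le_of_mul_le_mul_left (h2.trans h3) hP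
  linarith

end Pool.Agent.Helper318.L1D
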