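import Pool.Agent.Helper318.L1D.Defs

set_option autoImplicit false

open MeasureTheory Set Filter Topology

namespace Pool.Agent.Helper318.L1D



theorem max_family {Ω : Type*} [MeasurableSpace Ω] (μ : Measure Ω) :
    ∃ 𝓔 : Set (Set Ω), MaxFamily μ 𝓔 := by
  let S : Set (Set (Set Ω)) := {𝓔 | (∀ E ∈ 𝓔, AtomlessPiece μ E) ∧
    ∀ E ∈ 𝓔, ∀ E' ∈ 𝓔, E ≠ E' → μ (E ∩ E') = 0}
  obtain ⟨m, hm⟩ := zorn_subset S (by
    intro c hcS hc
    refine ⟨⋃₀ c, ⟨?_, ?_⟩, fun s hs => subset_sUnion_of_mem hs⟩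
    · rintro E ⟨s, hs, hE⟩
      exact (hcS hs).1 E hE
    · rintro E ⟨s, hs, hE⟩ E' ⟨s', hs', hE'⟩ hne
      rcases hc.total hs hs' with h | h
      · exact (hcS hs').2 E (h hE) E' hE' hne
      · exact (hcS hs).2 E hE E' (h hE') hne)
  refine ⟨m, hm.prop.1, hm.prop.2, ?_⟩
  intro E hE
  by_contra hcon
  push Not at hcon
  have h0 : ∀ E' ∈ m, μ (E ∩ E') = 0 := fun E' hE' => nonpos_iff_eq_zero.1 (hcon E' hE')
  have hins : insert E m ∈ S := by
    refine ⟨?_, ?_⟩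
    · rintro F (rfl | hF)
      · exact hE
      · exact hm.prop.1 F hF
    · rintro F (rfl | hF) F' (rfl | hF') hne
      · exact absurd rfl hne
      · exact h0 F' hF'
      · rw [inter_comm]
        exact h0 F hF
      · exact hm.prop.2 F hF F' hF' hne
  have hEm : E ∈ m := hm.le_of_ge hins (subset_insert E m) (mem_insert E m)
  have h1 := h0 E hEm
  rw [inter_self] at h1
  exact hE.2.1.ne' h1

end Pool.Agent.Helper318.L1D
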