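import Pool.Agent.Helper318.L1D.Defs
import Pool.Agent.Helper318.L1D.P_dominate
import Pool.Agent.Helper318.L1D.P_approx

set_option autoImplicit false

open MeasureTheory Set Filter Topology

namespace Pool.Agent.Helper318.L1D



theorem intg_max {Ω : Type*} [MeasurableSpace Ω] {μ : Measure Ω} {u v : Ω → ℝ}
    (hu : Integrable u μ) (hu0 : ∀ ω, 0 ≤ u ω) (hv : AEMeasurable v μ) (hv0 : ∀ ω, 0 ≤ v ω) :
    Integrable (fun ω => max (u ω - v ω) 0) μ := by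
  refine hu.mono' ?_ (ae_of_all _ fun ω => ?_)
  · exact ((hu.aemeasurable.sub hv).max aemeasurable_const).aestronglyMeasurable
  · rw [Real.norm_eq_abs, abs_of_nonneg (le_max_right _ _)]
    exact max_le (by linarith [hv0 ω]) (hu0 ω)

theorem tight {𝕜 : Type*} [RCLike 𝕜] {Ω : Type*} [MeasurableSpace Ω] {μ : Measure Ω}
    {𝓔 : Set (Set Ω)} (h𝓔 : MaxFamily μ 𝓔) {K : ℝ} {g : ℕ → Lp 𝕜 1 μ} (hg : TwoSeq K g)
    {ε : ℝ} (hε : 0 < ε) :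
    ∃ (F : Finset (Set Ω)) (M n₀ : ℕ), (F : Set (Set Ω)) ⊆ 𝓔 ∧
      ∀ n ≥ n₀, ∫ ω, max (‖g n ω‖ - cap F M ω) 0 ∂μ ≤ ε := by
  obtain ⟨ψ, hψ, hψ0, hdom⟩ := dominate hg (ε := ε / 3) (by positivity)
  obtain ⟨F, M, B, hF, hB, hap⟩ := approx 𝕜 h𝓔 hψ hψ0 (ε := ε / 3) (by positivity)
  have hev : ∀ᶠ n in atTop, ∫ ω in B, ‖g n ω‖ ∂μ < ε / 3 :=
    (hB.2 K g hg).eventually_lt_const (by positivity)
  obtain ⟨n₀, hn₀⟩ := eventually_atTop.1 hev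
  refine ⟨F, M, n₀, hF, fun n hn => ?_⟩
  have hn1 := hn₀ n hn
  have hgi : Integrable (fun ω => ‖g n ω‖) μ := (L1.integrable_coeFn (g n)).norm
  have hU : MeasurableSet (⋃ E ∈ F, E) :=
    Finset.measurableSet_biUnion F (fun E hE => (h𝓔.1 E (hF hE)).1)
  have hcm : Measurable (cap F M : Ω → ℝ) := measurable_const.indicator hU
  have hc0 : ∀ ω, 0 ≤ cap F M ω := fun ω =>
    Set.indicator_nonneg (fun _ _ => Nat.cast_nonneg M) ω
  have i1 : Integrable (fun ω => max (‖g n ω‖ - cap F M ω) 0) μ :=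
    intg_max hgi (fun ω => norm_nonneg _) hcm.aemeasurable hc0
  have i2 : Integrable (fun ω => max (‖g n ω‖ - ψ ω) 0) μ :=
    intg_max hgi (fun ω => norm_nonneg _) hψ.aemeasurable hψ0
  have i3 : Integrable (fun ω => max (ψ ω - cap F M ω) 0) μ :=
    intg_max hψ hψ0 hcm.aemeasurable hc0
  rw [← integral_add_compl hB.1 i1]
  have e1 : ∫ ω in B, max (‖g n ω‖ - cap F M ω) 0 ∂μ ≤ ∫ ω in B, ‖g n ω‖ ∂μ := by
    refine integral_mono i1.integrableOn hgi.integrableOn fun ω => ?_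
    exact max_le (by linarith [hc0 ω]) (norm_nonneg _)
  have e2 : ∫ ω in Bᶜ, max (‖g n ω‖ - cap F M ω) 0 ∂μ ≤
      ∫ ω in Bᶜ, (max (‖g n ω‖ - ψ ω) 0 + max (ψ ω - cap F M ω) 0) ∂μ := by
    refine integral_mono i1.integrableOn (i2.add i3).integrableOn fun ω => ?_
    show max (‖g n ω‖ - cap F M ω) 0 ≤ max (‖g n ω‖ - ψ ω) 0 + max (ψ ω - cap F M ω) 0
    refine max_le ?_ (add_nonneg (le_max_right _ _) (le_max_right _ _))
    linarith [le_max_left (‖g n ω‖ - ψ ω) 0, le_max_left (ψ ω - cap F M ω) 0]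
  have e3 : ∫ ω in Bᶜ, (max (‖g n ω‖ - ψ ω) 0 + max (ψ ω - cap F M ω) 0) ∂μ =
      ∫ ω in Bᶜ, max (‖g n ω‖ - ψ ω) 0 ∂μ + ∫ ω in Bᶜ, max (ψ ω - cap F M ω) 0 ∂μ :=
    integral_add i2.integrableOn i3.integrableOn
  have e4 : ∫ ω in Bᶜ, max (‖g n ω‖ - ψ ω) 0 ∂μ ≤ ∫ ω, max (‖g n ω‖ - ψ ω) 0 ∂μ :=
    setIntegral_le_integral i2 (ae_of_all _ fun ω => le_max_right _ _)
  have e5 := hdom n
  linarith

end Pool.Agent.Helper318.L1D
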