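import Pool.Agent.Helper318.L1D.Defs
import Pool.Agent.Helper318.L1D.P_family
import Pool.Agent.Helper318.L1D.P_max_family
import Pool.Agent.Helper318.L1D.P_tight
import Pool.Agent.Helper318.L1D.P_final_ineq

set_option autoImplicit false

open MeasureTheory Set Filter Topology

namespace Pool.Agent.Helper318.L1D



theorem main {𝕜 : Type*} [RCLike 𝕜] {Ω : Type*} [MeasurableSpace Ω] {μ : Measure Ω}
    {X : Type*} [NormedAddCommGroup X] [NormedSpace 𝕜 X]
    (T : Lp 𝕜 1 μ ≃L[𝕜] StrongDual 𝕜 X) {E : Set Ω} (hE : AtomlessPiece μ E) :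
    ∃ A : ℝ → Set Ω, (∀ r, AtomlessPiece μ (A r)) ∧
      Pairwise fun r r' => μ (A r ∩ A r') = 0 := by
  classical
  obtain ⟨𝓔, h𝓔⟩ := max_family μ
  rcases le_or_gt Cardinal.continuum (Cardinal.mk 𝓔) with hc | hc
  · have h1 : Nonempty (ℝ ↪ 𝓔) := by
      rw [← Cardinal.lift_mk_le', Cardinal.mk_real, Cardinal.lift_continuum]
      simpa using hc
    obtain ⟨f⟩ := h1
    refine ⟨fun r => (f r : Set Ω), fun r => h𝓔.1 _ (f r).2, ?_⟩
    intro r r' hrr'
    refine h𝓔.2.1 _ (f r).2 _ (f r').2 ?_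
    intro h
    exact hrr' (f.injective (Subtype.ext h))
  · exfalso
    obtain ⟨K, δ, g, hδ, hg, hlow⟩ := family T hE
    have htight := fun t => tight h𝓔 (hg t) (half_pos hδ)
    choose F M n₁ hF hup using htight
    let φ : ULift.{_, 0} (ℕ → Bool) → Finset 𝓔 × ℕ :=
      fun t => ((F t.down).subtype (· ∈ 𝓔), M t.down)
    have hφ : ∀ t t', φ t = φ t' → F t.down = F t'.down ∧ M t.down = M t'.down := by
      intro t t' h
      have h1 := congrArg Prod.fst h
      have h2 := congrArg Prod.snd h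
      refine ⟨?_, h2⟩
      have e1 := Finset.subtype_map_of_mem (s := F t.down) (p := (· ∈ 𝓔)) (fun x hx => hF _ hx)
      have e2 := Finset.subtype_map_of_mem (s := F t'.down) (p := (· ∈ 𝓔)) (fun x hx => hF _ hx)
      rw [← e1, ← e2]
      exact congrArg (fun z => Finset.map (Function.Embedding.subtype (· ∈ 𝓔)) z) h1
    have hcard1 : Cardinal.mk (Finset 𝓔) < Cardinal.continuum := by
      rcases finite_or_infinite 𝓔 with hfin | hinf
      · exact lt_of_lt_of_le (Cardinal.lt_aleph0_of_finite _) Cardinal.aleph0_le_continuum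
      · rw [Cardinal.mk_finset_of_infinite]
        exact hc
    have hcard2 : Cardinal.mk (Finset 𝓔 × ℕ) < Cardinal.mk (ULift (ℕ → Bool)) := by
      have e3 : Cardinal.mk (ULift (ℕ → Bool)) = Cardinal.continuum := by
        rw [Cardinal.mk_uLift]
        simp
      rw [e3, Cardinal.mk_prod]
      refine Cardinal.mul_lt_of_lt Cardinal.aleph0_le_continuum ?_ ?_
      · simpa using hcard1
      · simpa using Cardinal.aleph0_lt_continuum
    obtain ⟨a, ha⟩ := Cardinal.exists_infinite_fiber φ hcard2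
    have hS : {t : ℕ → Bool | φ ⟨t⟩ = a}.Infinite := by
      intro hfin
      have : (φ ⁻¹' {a}).Finite := by
        refine (hfin.image (fun t => (⟨t⟩ : ULift (ℕ → Bool)))).subset ?_
        rintro ⟨t⟩ ht
        exact ⟨t, ht, rfl⟩
      exact (Set.infinite_coe_iff.1 ha) this
    obtain ⟨t₀, ht₀⟩ := hS.nonempty
    have hF0 : ∀ t ∈ {t : ℕ → Bool | φ ⟨t⟩ = a}, F t = F t₀ ∧ M t = M t₀ := by
      intro t ht
      exact hφ ⟨t⟩ ⟨t₀⟩ (Eq.trans ht (Eq.symm ht₀))
    set ψ := cap (F t₀) (M t₀) with hψdef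
    have hmeasU : MeasurableSet (⋃ E ∈ F t₀, E) :=
      Finset.measurableSet_biUnion _ fun E hE => (h𝓔.1 E (hF t₀ hE)).1
    have hfinU : μ (⋃ E ∈ F t₀, E) < ⊤ := by
      refine measure_biUnion_lt_top (Finset.finite_toSet _) ?_
      intro E hE
      exact (h𝓔.1 E (hF t₀ hE)).2.2.1
    have hψ : Integrable ψ μ := by
      rw [hψdef, cap]
      exact (integrable_indicator_iff hmeasU).2 (integrableOn_const hfinU.ne)
    have hψ0 : ∀ ω, 0 ≤ ψ ω := by
      intro ω
      rw [hψdef, cap]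
      exact Set.indicator_nonneg (fun _ _ => Nat.cast_nonneg _) ω
    set I := ∫ ω, ψ ω ∂μ with hI
    have hI0 : 0 ≤ I := integral_nonneg hψ0
    obtain ⟨m, hm⟩ := exists_nat_gt ((2 * I / δ) ^ 2 + 1)
    obtain ⟨J, hJS, hJm⟩ := hS.exists_subset_card_eq m
    obtain ⟨n₀, hn₀⟩ := hlow J
    let n := max n₀ (J.sup n₁)
    have hkey := final_ineq (J := ↥J) (fun j => g j.1 n) δ ψ hψ hψ0 ?_ ?_
    · rw [Fintype.card_coe, hJm] at hkey
      have hm0 : (0 : ℝ) < m := lt_of_le_of_lt (by positivity) hm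
      have hsq : √(m : ℝ) * √(m : ℝ) = m := Real.mul_self_sqrt hm0.le
      have hsp : 0 < √(m : ℝ) := Real.sqrt_pos.2 hm0
      have h3 : √(m : ℝ) * (δ / 2 * √(m : ℝ)) ≤ √(m : ℝ) * I := by
        calc √(m : ℝ) * (δ / 2 * √(m : ℝ)) = δ / 2 * (√(m : ℝ) * √(m : ℝ)) := by ring
          _ = δ / 2 * m := by rw [hsq]
          _ ≤ _ := hkey
      have h4 : δ / 2 * √(m : ℝ) ≤ I := le_of_mul_le_mul_left h3 hsp
      have h5 : √(m : ℝ) ≤ 2 * I / δ := by
        rw [le_div_iff₀ hδ]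
        linarith
      have h6 : (m : ℝ) ≤ (2 * I / δ) ^ 2 := by
        rw [← hsq, ← pow_two]
        exact pow_le_pow_left₀ hsp.le h5 2
      linarith
    · intro ε
      have h1 := hn₀ n (le_max_left _ _) (fun t => if h : t ∈ J then ε ⟨t, h⟩ else true)
      rw [Fintype.card_coe]
      have h2 : ∑ t ∈ J, sv (if h : t ∈ J then ε ⟨t, h⟩ else true) (g t n) =
          ∑ j : ↥J, sv (ε j) (g j.1 n) := by
        rw [← Finset.sum_coe_sort J]
        refine Finset.sum_congr rfl fun j _ => ?_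
        rw [dif_pos j.2]
      rw [h2] at h1
      exact h1
    · intro j
      obtain ⟨h1, h2⟩ := hF0 j.1 (hJS j.2)
      have h3 := hup j.1 n (le_trans (Finset.le_sup j.2) (le_max_right _ _))
      rw [h1, h2] at h3
      exact h3

end Pool.Agent.Helper318.L1D
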